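import Pool.Agent.TH630.Fill.Defs

/-! # Signed volume of top-dimensional Lipschitz simplices (definition) -/

open MeasureTheory

namespace Pool.Agent.TH630

/-- The signed Euclidean volume of a top-dimensional Lipschitz simplex. -/
noncomputable def sgnVol {m : ℕ} (σ : LipSimplex m m) : ℝ :=
  ∫ t in corner m, (fderiv ℝ σ.param t).det

/-- The signed volume of a top-dimensional Lipschitz chain. -/
noncomputable def sgnVolChain {m : ℕ} (c : Chain m m) : ℝ :=
  c.sum fun σ a => (a : ℝ) * sgnVol σ

end Pool.Agent.TH630
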