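import Pool.Agent.TH630.Fill.Basic
import Pool.Agent.TH630.Fill.Vol

open MeasureTheory MvPolynomial
open scoped ENNReal NNReal

namespace Pool.Agent.TH630

variable {n k : ℕ}

/-! ### The boundary is additive -/

/-- The boundary as a homomorphism. -/
noncomputable def bdryHom : Chain n (k + 1) →+ Chain n k :=
  Finsupp.liftAddHom fun σ => ∑ i : Fin (k + 2),
    (Finsupp.singleAddHom (σ.face i)).comp (AddMonoidHom.mulLeft ((-1 : ℤ) ^ (i : ℕ)))

theorem bdry_eq (c : Chain n (k + 1)) : bdry c = bdryHom c := by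
  rw [bdryHom, Finsupp.liftAddHom_apply, bdry]
  congr 1
  funext σ a
  simp

theorem bdry_zero : bdry (0 : Chain n (k + 1)) = 0 := by rw [bdry_eq, map_zero]
theorem bdry_add (a b : Chain n (k + 1)) : bdry (a + b) = bdry a + bdry b := by
  simp only [bdry_eq, map_add]
theorem bdry_sub (a b : Chain n (k + 1)) : bdry (a - b) = bdry a - bdry b := by
  simp only [bdry_eq, map_sub]
theorem bdry_neg (a : Chain n (k + 1)) : bdry (-a) = -bdry a := by
  simp only [bdry_eq, map_neg]
theorem bdry_smul (m : ℤ) (a : Chain n (k + 1)) : bdry (m • a) = m • bdry a := by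
  simp only [bdry_eq, map_zsmul]
theorem bdry_sum {ι : Type*} (s : Finset ι) (f : ι → Chain n (k + 1)) :
    bdry (∑ i ∈ s, f i) = ∑ i ∈ s, bdry (f i) := by
  simp only [bdry_eq, map_sum]

theorem bdry_single (σ : LipSimplex n (k + 1)) (a : ℤ) :
    bdry (Finsupp.single σ a) =
      ∑ i : Fin (k + 2), Finsupp.single (σ.face i) ((-1) ^ (i : ℕ) * a) := by
  rw [bdry, Finsupp.sum_single_index]
  simp

/-! ### Mass -/

namespace NilLaw

variable (G : NilLaw n) (B : Matrix (Fin n) (Fin n) ℝ)

theorem mass_zero : G.mass B (0 : Chain n k) = 0 := by simp [mass]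

theorem mass_single (σ : LipSimplex n k) (a : ℤ) :
    G.mass B (Finsupp.single σ a) = (a.natAbs : ℝ≥0∞) * G.vol B σ := by
  rw [mass, Finsupp.sum_single_index]
  simp

theorem mass_eq_sum (c : Chain n k) {s : Finset (LipSimplex n k)} (hs : c.support ⊆ s) :
    G.mass B c = ∑ σ ∈ s, ((c σ).natAbs : ℝ≥0∞) * G.vol B σ := by
  rw [mass]
  exact Finsupp.sum_of_support_subset _ hs _ (by simp)

theorem mass_add_le (a b : Chain n k) : G.mass B (a + b) ≤ G.mass B a + G.mass B b := by
  classical
  have ha : a.support ⊆ a.support ∪ b.support := Finset.subset_union_left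
  have hb : b.support ⊆ a.support ∪ b.support := Finset.subset_union_right
  rw [G.mass_eq_sum B (a + b) Finsupp.support_add, G.mass_eq_sum B a ha, G.mass_eq_sum B b hb,
    ← Finset.sum_add_distrib]
  apply Finset.sum_le_sum
  intro σ _
  rw [← add_mul]
  gcongr
  rw [Finsupp.add_apply]
  exact_mod_cast Int.natAbs_add_le _ _

theorem mass_neg (a : Chain n k) : G.mass B (-a) = G.mass B a := by
  rw [G.mass_eq_sum B (-a) (s := a.support) (by rw [Finsupp.support_neg]),
    G.mass_eq_sum B a subset_rfl]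
  simp

theorem mass_sub_le (a b : Chain n k) : G.mass B (a - b) ≤ G.mass B a + G.mass B b := by
  rw [sub_eq_add_neg, ← G.mass_neg B b]
  exact G.mass_add_le B a (-b)

theorem mass_sum_le {ι : Type*} (s : Finset ι) (f : ι → Chain n k) :
    G.mass B (∑ i ∈ s, f i) ≤ ∑ i ∈ s, G.mass B (f i) := by
  classical
  induction s using Finset.induction_on with
  | empty => simp [mass_zero]
  | insert a s ha ih =>
    rw [Finset.sum_insert ha, Finset.sum_insert ha]
    exact (G.mass_add_le B _ _).trans (by gcongr)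

theorem mass_sign_smul (j : ℕ) (a : Chain n k) : G.mass B (((-1 : ℤ) ^ j) • a) = G.mass B a := by
  rcases neg_one_pow_eq_or ℤ j with h | h
  · rw [h, one_smul]
  · rw [h, neg_one_smul, mass_neg]

end NilLaw

/-! ### The alternating sum over faces of tuples -/

/-- The alternating sum of a chain-valued function over the faces of a tuple. -/
noncomputable def altSum {X : Type*} {M : Type*} [AddCommGroup M] {k : ℕ} (Φ : (Fin k → X) → M)
    (g : Fin (k + 1) → X) : M :=
  ∑ i : Fin (k + 1), ((-1 : ℤ) ^ (i : ℕ)) • Φ (fun j => g (i.succAbove j))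

/-! ### Translations -/

theorem LipSimplex.exists_lip_comp (σ : LipSimplex n k) {m : ℕ} (f : (Fin n → ℝ) → (Fin m → ℝ))
    (hf : LocallyLipschitz f) : ∃ K : ℝ≥0, LipschitzWith K fun t => f (σ.toFun t) := by
  obtain ⟨K, hK⟩ := σ.lip
  have h1 : LocallyLipschitz fun t => f (σ.toFun t) := hf.comp hK.locallyLipschitz
  have : CompactSpace (stdSimplex ℝ (Fin (k + 1))) :=
    isCompact_iff_compactSpace.1 (isCompact_stdSimplex ℝ (Fin (k + 1)))
  obtain ⟨K', hK'⟩ := LocallyLipschitzOn.exists_lipschitzOnWith_of_compact isCompact_univ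
    (locallyLipschitzOn_univ.2 h1)
  exact ⟨K', lipschitzOnWith_univ.1 hK'⟩

namespace NilLaw

variable (G : NilLaw n) (B : Matrix (Fin n) (Fin n) ℝ)

theorem locallyLipschitz_mulLeft (g : Fin n → ℝ) : LocallyLipschitz (G.mul g) :=
  (G.contDiff_mulLeft g 1).locallyLipschitz

/-- The left translate of a Lipschitz simplex. -/
noncomputable def tr (g : Fin n → ℝ) (σ : LipSimplex n k) : LipSimplex n k :=
  ⟨fun t => G.mul g (σ.toFun t), σ.exists_lip_comp _ (G.locallyLipschitz_mulLeft g)⟩

theorem tr_injective (g : Fin n → ℝ) :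
    Function.Injective (G.tr g : LipSimplex n k → LipSimplex n k) := by
  intro σ τ h
  ext1
  funext t
  have := congrFun (congrArg LipSimplex.toFun h) t
  exact G.mul_injective g this

theorem face_tr (g : Fin n → ℝ) (σ : LipSimplex n (k + 1)) (i : Fin (k + 2)) :
    (G.tr g σ).face i = G.tr g (σ.face i) := rfl

/-- The left translate of a chain. -/
noncomputable def trC (g : Fin n → ℝ) (c : Chain n k) : Chain n k := c.mapDomain (G.tr g)

theorem trC_add (g : Fin n → ℝ) (a b : Chain n k) : G.trC g (a + b) = G.trC g a + G.trC g b :=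
  Finsupp.mapDomain_add

theorem bdry_trC (g : Fin n → ℝ) (c : Chain n (k + 1)) : bdry (G.trC g c) = G.trC g (bdry c) := by
  induction c using Finsupp.induction_linear with
  | zero => simp [trC, bdry_zero]
  | add a b ha hb => rw [trC_add, bdry_add, bdry_add, trC_add, ha, hb]
  | single σ a =>
    rw [trC, Finsupp.mapDomain_single, bdry_single, bdry_single, trC,
      Finsupp.mapDomain_finsetSum]
    simp only [Finsupp.mapDomain_single, face_tr]

theorem param_tr (g : Fin n → ℝ) (σ : LipSimplex n k) {t : Fin k → ℝ} (ht : bary t ∈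
    stdSimplex ℝ (Fin (k + 1))) : (G.tr g σ).param t = G.mul g (σ.param t) := by
  simp [LipSimplex.param, ht, tr]

end NilLaw

theorem bary_mem_iff (t : Fin k → ℝ) : bary t ∈ stdSimplex ℝ (Fin (k + 1)) ↔ t ∈ corner k := by
  constructor
  · rintro ⟨h1, _⟩
    refine ⟨fun i => by simpa [bary] using h1 i.succ, ?_⟩
    have := h1 0
    simp only [bary, Fin.cons_zero] at this
    linarith
  · rintro ⟨h1, h2⟩
    refine ⟨fun i => ?_, ?_⟩
    · refine Fin.cases ?_ (fun j => ?_) i
      · simpa [bary] using h2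
      · simpa [bary] using h1 j
    · simp [bary, Fin.sum_univ_succ]

theorem convex_corner (k : ℕ) : Convex ℝ (corner k) := by
  intro x hx y hy a b ha hb hab
  refine ⟨fun i => ?_, ?_⟩
  · have := hx.1 i
    have := hy.1 i
    simp only [Pi.add_apply, Pi.smul_apply, smul_eq_mul]
    positivity
  · simp only [Pi.add_apply, Pi.smul_apply, smul_eq_mul, Finset.sum_add_distrib,
      ← Finset.mul_sum]
    have h1 := hx.2
    have h2 := hy.2
    nlinarith

theorem isClosed_corner (k : ℕ) : IsClosed (corner k) := by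
  have h : corner k = (⋂ i, {t : Fin k → ℝ | 0 ≤ t i}) ∩ {t | ∑ i, t i ≤ 1} := by
    ext t
    simp [corner]
  rw [h]
  refine (isClosed_iInter fun i => isClosed_le continuous_const (continuous_apply i)).inter ?_
  exact isClosed_le (continuous_finsetSum _ fun i _ => continuous_apply i) continuous_const

theorem corner_subset (k : ℕ) : corner k ⊆ Set.Icc 0 1 := by
  intro t ht
  refine ⟨fun i => ht.1 i, fun i => ?_⟩
  have h := Finset.single_le_sum (f := t) (fun i _ => ht.1 i) (Finset.mem_univ i)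
  exact h.trans ht.2

theorem isCompact_corner (k : ℕ) : IsCompact (corner k) :=
  isCompact_Icc.of_isClosed_subset (isClosed_corner k) (corner_subset k)

theorem measurableSet_corner (k : ℕ) : MeasurableSet (corner k) := (isClosed_corner k).measurableSet

/-- The open simplex. -/
def ocorner (k : ℕ) : Set (Fin k → ℝ) := {t | (∀ i, 0 < t i) ∧ ∑ i, t i < 1}

theorem isOpen_ocorner (k : ℕ) : IsOpen (ocorner k) := by
  have h : ocorner k = (⋂ i, {t : Fin k → ℝ | 0 < t i}) ∩ {t | ∑ i, t i < 1} := by
    ext t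
    simp [ocorner]
  rw [h]
  refine (isOpen_iInter_of_finite fun i => isOpen_lt continuous_const (continuous_apply i)).inter ?_
  exact isOpen_lt (continuous_finsetSum _ fun i _ => continuous_apply i) continuous_const

theorem ocorner_subset (k : ℕ) : ocorner k ⊆ corner k := fun _ ht =>
  ⟨fun i => (ht.1 i).le, ht.2.le⟩

theorem interior_corner_subset (k : ℕ) : interior (corner k) ⊆ ocorner k := by
  intro t ht
  have hn : corner k ∈ nhds t := mem_interior_iff_mem_nhds.1 ht
  have htc : t ∈ corner k := interior_subset ht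
  constructor
  · intro i
    have h1 : Filter.Tendsto (fun s : ℝ => t - s • (Pi.single i 1 : Fin k → ℝ)) (nhds 0)
        (nhds t) := by
      have : Continuous (fun s : ℝ => t - s • (Pi.single i 1 : Fin k → ℝ)) := by fun_prop
      simpa using this.tendsto 0
    have h2 := h1.eventually hn
    obtain ⟨ε, hε, h3⟩ := Metric.eventually_nhds_iff.1 h2
    have h4 := (h3 (y := ε / 2) (by rw [Real.dist_0_eq_abs, abs_of_pos (by positivity)]; linarith)).1 i
    simp only [Pi.sub_apply, Pi.smul_apply, Pi.single_eq_same, smul_eq_mul, mul_one] at h4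
    linarith
  · by_contra hcon
    have h0 : ∑ i, t i = 1 := le_antisymm htc.2 (not_lt.1 hcon)
    have h1 : Filter.Tendsto (fun s : ℝ => (1 + s) • t) (nhds 0) (nhds t) := by
      have : Continuous (fun s : ℝ => (1 + s) • t) := by fun_prop
      simpa using this.tendsto 0
    have h2 := h1.eventually hn
    obtain ⟨ε, hε, h3⟩ := Metric.eventually_nhds_iff.1 h2
    have h4 := (h3 (y := ε / 2) (by rw [Real.dist_0_eq_abs, abs_of_pos (by positivity)]; linarith)).2
    simp only [Pi.smul_apply, smul_eq_mul, ← Finset.mul_sum, h0] at h4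
    linarith

theorem ae_mem_ocorner (k : ℕ) : ∀ᵐ t ∂(volume.restrict (corner k)), t ∈ ocorner k := by
  rw [ae_restrict_iff' (measurableSet_corner k)]
  have h : volume (frontier (corner k)) = 0 := (convex_corner k).addHaar_frontier volume
  have h2 : ∀ᵐ t ∂(volume : Measure (Fin k → ℝ)), t ∉ frontier (corner k) :=
    measure_eq_zero_iff_ae_notMem.1 h
  filter_upwards [h2] with t ht htc
  by_contra hcon
  exact ht ⟨subset_closure htc, fun h3 => hcon (interior_corner_subset k h3)⟩

theorem volume_corner_lt_top (k : ℕ) : volume (corner k) < ⊤ := (isCompact_corner k).measure_lt_top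

theorem volume_corner_pos (k : ℕ) : 0 < volume (corner k) := by
  refine lt_of_lt_of_le ?_ (measure_mono (ocorner_subset k))
  refine (isOpen_ocorner k).measure_pos volume ⟨fun _ => 1 / (k + 1 : ℝ), fun _ => by positivity, ?_⟩
  simp only [Finset.sum_const, Finset.card_univ, Fintype.card_fin, nsmul_eq_mul]
  rw [mul_one_div, div_lt_one (by positivity)]
  linarith

namespace NilLaw

variable (G : NilLaw n) (B : Matrix (Fin n) (Fin n) ℝ)

theorem gram_congr {f f' : (Fin k → ℝ) → (Fin n → ℝ)} {t : Fin k → ℝ} (h : f =ᶠ[nhds t] f') :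
    G.gram B f t = G.gram B f' t := by
  ext i j
  simp only [gram, Matrix.of_apply, h.fderiv_eq, h.eq_of_nhds]

theorem param_tr_eventuallyEq (g : Fin n → ℝ) (σ : LipSimplex n k) {t : Fin k → ℝ}
    (ht : t ∈ ocorner k) : (G.tr g σ).param =ᶠ[nhds t] fun s => G.mul g (σ.param s) := by
  filter_upwards [(isOpen_ocorner k).mem_nhds ht] with s hs
  exact G.param_tr g σ ((bary_mem_iff s).2 (ocorner_subset k hs))

theorem vol_tr (g : Fin n → ℝ) (σ : LipSimplex n k) : G.vol B (G.tr g σ) = G.vol B σ := by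
  rw [vol, vol]
  apply lintegral_congr_ae
  filter_upwards [ae_mem_ocorner k] with t ht
  rw [G.gram_congr B (G.param_tr_eventuallyEq g σ ht), gram_mulLeft]

theorem mass_trC (g : Fin n → ℝ) (c : Chain n k) : G.mass B (G.trC g c) = G.mass B c := by
  rw [mass, trC, Finsupp.sum_mapDomain_index_inj (G.tr_injective g), mass]
  simp only [vol_tr]

theorem sgnVol_tr (g : Fin n → ℝ) (σ : LipSimplex n n) : sgnVol (G.tr g σ) = sgnVol σ := by
  rw [sgnVol, sgnVol]
  apply integral_congr_ae
  filter_upwards [ae_mem_ocorner n] with t ht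
  rw [(G.param_tr_eventuallyEq g σ ht).fderiv_eq]
  have : fderiv ℝ (fun s => G.mul g (σ.param s)) t =
      (fderiv ℝ (G.mul g) (σ.param t)).comp (fderiv ℝ σ.param t) := by
    ext1 v
    exact G.fderiv_mulLeft_comp g σ.param t v
  rw [this, ContinuousLinearMap.det, ContinuousLinearMap.toLinearMap_comp, LinearMap.det_comp]
  have h1 := G.det_fderiv_mulLeft g (σ.param t)
  rw [ContinuousLinearMap.det] at h1
  rw [h1, one_mul]

/-- The determinant of the identification of tangent spaces. -/
theorem det_gram (f : (Fin n → ℝ) → (Fin n → ℝ)) (t : Fin n → ℝ) :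
    √ (G.gram B f t).det = |(fderiv ℝ f t).det| * √ B.det := by
  set T : (Fin n → ℝ) →L[ℝ] (Fin n → ℝ) := fderiv ℝ (G.mul (G.inv (f t))) (f t) with hT
  set J := fderiv ℝ f t with hJ
  set M : Matrix (Fin n) (Fin n) ℝ := LinearMap.toMatrix' (T.comp J : (Fin n → ℝ) →ₗ[ℝ] (Fin n → ℝ))
    with hM
  have h1 : G.gram B f t = M.transpose * B * M := by
    ext i j
    rw [gram, Matrix.of_apply, metric, triv_eq, triv_eq, Matrix.mul_assoc, Matrix.mul_apply]
    simp only [dotProduct]
    apply Finset.sum_congr rfl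
    intro a _
    congr 1
  have h2 : M.det = J.det := by
    rw [hM, LinearMap.det_toMatrix', ContinuousLinearMap.toLinearMap_comp, LinearMap.det_comp]
    have h3 := G.det_fderiv_mulLeft (G.inv (f t)) (f t)
    rw [ContinuousLinearMap.det] at h3
    rw [h3, one_mul]
  rw [h1, Matrix.det_mul, Matrix.det_mul, Matrix.det_transpose, h2]
  have h4 : J.det * B.det * J.det = J.det ^ 2 * B.det := by ring
  rw [h4, Real.sqrt_mul (sq_nonneg _), Real.sqrt_sq_eq_abs]

theorem ofReal_abs_sgnVol_le (hB : B.PosDef) (σ : LipSimplex n n) :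
    ENNReal.ofReal |sgnVol σ| ≤ ENNReal.ofReal (√ B.det)⁻¹ * G.vol B σ := by
  have hdet : 0 < √ B.det := Real.sqrt_pos.2 hB.det_pos
  rw [sgnVol, ← Real.norm_eq_abs, ofReal_norm, vol, ← lintegral_const_mul']
  · refine (enorm_integral_le_lintegral_enorm _).trans (le_of_eq ?_)
    apply lintegral_congr
    intro t
    rw [G.det_gram B, ← ENNReal.ofReal_mul (by positivity)]
    rw [mul_comm |_| _, ← _root_.mul_assoc, inv_mul_cancel₀ hdet.ne', one_mul, Real.enorm_eq_ofReal_abs]
  · exact ENNReal.ofReal_ne_top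

end NilLaw

/-! ### The signed volume of chains -/

/-- Signed volume as a homomorphism. -/
noncomputable def sgnVolHom {m : ℕ} : Chain m m →+ ℝ :=
  Finsupp.liftAddHom fun σ => (AddMonoidHom.mulRight (sgnVol σ)).comp (Int.castAddHom ℝ)

theorem sgnVolChain_eq {m : ℕ} (c : Chain m m) : sgnVolChain c = sgnVolHom c := by
  rw [sgnVolHom, Finsupp.liftAddHom_apply, sgnVolChain]
  rfl

theorem sgnVolChain_add {m : ℕ} (a b : Chain m m) :
    sgnVolChain (a + b) = sgnVolChain a + sgnVolChain b := by simp only [sgnVolChain_eq, map_add]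
theorem sgnVolChain_sub {m : ℕ} (a b : Chain m m) :
    sgnVolChain (a - b) = sgnVolChain a - sgnVolChain b := by simp only [sgnVolChain_eq, map_sub]
theorem sgnVolChain_smul {m : ℕ} (j : ℤ) (a : Chain m m) :
    sgnVolChain (j • a) = j * sgnVolChain a := by
  simp only [sgnVolChain_eq, map_zsmul, zsmul_eq_mul]
theorem sgnVolChain_sum {m : ℕ} {ι : Type*} (s : Finset ι) (f : ι → Chain m m) :
    sgnVolChain (∑ i ∈ s, f i) = ∑ i ∈ s, sgnVolChain (f i) := by
  simp only [sgnVolChain_eq, map_sum]
theorem sgnVolChain_single {m : ℕ} (σ : LipSimplex m m) :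
    sgnVolChain (Finsupp.single σ 1) = sgnVol σ := by
  simp [sgnVolChain]

theorem NilLaw.ofReal_abs_sgnVolChain_le (G : NilLaw n) (B : Matrix (Fin n) (Fin n) ℝ)
    (hB : B.PosDef) (c : Chain n n) :
    ENNReal.ofReal |sgnVolChain c| ≤ ENNReal.ofReal (√ B.det)⁻¹ * G.mass B c := by
  rw [sgnVolChain, NilLaw.mass, Finsupp.sum, Finsupp.sum, Finset.mul_sum]
  calc ENNReal.ofReal |∑ σ ∈ c.support, (c σ : ℝ) * sgnVol σ|
      ≤ ENNReal.ofReal (∑ σ ∈ c.support, |(c σ : ℝ) * sgnVol σ|) :=
        ENNReal.ofReal_le_ofReal (Finset.abs_sum_le_sum_abs _ _)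
    _ = ∑ σ ∈ c.support, ENNReal.ofReal |(c σ : ℝ) * sgnVol σ| :=
        ENNReal.ofReal_sum_of_nonneg fun _ _ => abs_nonneg _
    _ ≤ _ := by
        apply Finset.sum_le_sum
        intro σ _
        rw [abs_mul, ENNReal.ofReal_mul (abs_nonneg _)]
        have h1 : ENNReal.ofReal |(c σ : ℝ)| = ((c σ).natAbs : ℝ≥0∞) := by
          rw [← Int.cast_abs, ← Int.natCast_natAbs, Int.cast_natCast, ENNReal.ofReal_natCast]
        rw [h1, mul_left_comm]
        gcongr
        exact G.ofReal_abs_sgnVol_le B hB σ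

end Pool.Agent.TH630
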