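import Pool.Agent.TH630.Fill.Basic

open MeasureTheory MvPolynomial
open scoped ENNReal NNReal

namespace Pool.Agent.TH630

variable {n k : ℕ}

/-! # Barycentric straightening in a nilpotent group

For weights `t` of sum `1` and points `g j`, the barycentre is the unique point `c` with
`∑ j, t j * (c⁻¹ g_j)_i = 0` for all `i`; it is the fixed point of `barStep`, reached after `n`
iterations because `(c⁻¹ g)_i + c_i` depends only on the coordinates of `c` of index `< i`. -/

namespace NilLaw

variable (G : NilLaw n)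

/-- One step of the iteration which computes barycentres. -/
noncomputable def barStep {ι : Type*} [Fintype ι] (t : ι → ℝ) (g : ι → Fin n → ℝ)
    (c : Fin n → ℝ) : Fin n → ℝ :=
  fun i => ∑ j, t j * (G.ldiv c (g j) i + c i)

/-- Iterates of `barStep`. -/
noncomputable def barIter {ι : Type*} [Fintype ι] (t : ι → ℝ) (g : ι → Fin n → ℝ) :
    ℕ → Fin n → ℝ
  | 0 => 0
  | m + 1 => G.barStep t g (barIter t g m)

/-- The barycentre of the points `g j` with weights `t j`. -/
noncomputable def bar {ι : Type*} [Fintype ι] (t : ι → ℝ) (g : ι → Fin n → ℝ) : Fin n → ℝ :=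
  G.barIter t g n

theorem contDiff_barIter {ι : Type*} [Fintype ι] (m : WithTop ℕ∞) (j : ℕ) :
    ContDiff ℝ m (fun p : (ι → ℝ) × (ι → Fin n → ℝ) => G.barIter p.1 p.2 j) := by
  induction j with
  | zero => simpa [barIter] using contDiff_const
  | succ j ih =>
    rw [contDiff_pi]
    intro i
    simp only [barIter, barStep]
    refine ContDiff.sum fun a _ => ?_
    refine ContDiff.mul ((contDiff_apply ℝ ℝ a).comp contDiff_fst) (ContDiff.add ?_ ?_)
    · have h1 : ContDiff ℝ m (fun p : (ι → ℝ) × (ι → Fin n → ℝ) => p.2 a) :=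
        (contDiff_apply ℝ (Fin n → ℝ) a).comp contDiff_snd
      have h2 := (G.contDiff_ldiv₂ m).comp (ih.prodMk h1)
      exact (contDiff_pi.1 h2) i
    · exact (contDiff_pi.1 ih) i

theorem contDiff_bar {ι : Type*} [Fintype ι] (m : WithTop ℕ∞) :
    ContDiff ℝ m (fun p : (ι → ℝ) × (ι → Fin n → ℝ) => G.bar p.1 p.2) :=
  G.contDiff_barIter m n

theorem contDiff_bar_left {ι : Type*} [Fintype ι] (m : WithTop ℕ∞) (g : ι → Fin n → ℝ) :
    ContDiff ℝ m (fun t : ι → ℝ => G.bar t g) :=
  (G.contDiff_bar m).comp (contDiff_id.prodMk contDiff_const)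

/-- The barycentric simplex with vertices `g`. -/
noncomputable def barSimplex (g : Fin (k + 1) → Fin n → ℝ) : LipSimplex n k :=
  ⟨fun t => G.bar t.1 g, by
    have h1 : LocallyLipschitz fun t : Fin (k + 1) → ℝ => G.bar t g :=
      (G.contDiff_bar_left 1 g).locallyLipschitz
    obtain ⟨K, hK⟩ := LocallyLipschitzOn.exists_lipschitzOnWith_of_compact
      (isCompact_stdSimplex ℝ (Fin (k + 1))) (h1.locallyLipschitzOn)
    exact ⟨K, (lipschitzOnWith_iff_restrict.1 hK)⟩⟩

end NilLaw

/-- The constant simplex at a point. -/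
def ptSimplex (x : Fin n → ℝ) : LipSimplex n k := ⟨fun _ => x, 0, LipschitzWith.const x⟩

end Pool.Agent.TH630
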