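import Pool.Agent.TH630.Fill.Defs

open MeasureTheory MvPolynomial
open scoped ENNReal NNReal

namespace Pool.Agent.TH630

variable {n k : ℕ}

/-! ### Polynomial functions are smooth -/

theorem contDiff_eval {ι : Type*} [Fintype ι] (p : MvPolynomial ι ℝ) (m : WithTop ℕ∞) :
    ContDiff ℝ m (fun x : ι → ℝ => eval x p) := by
  induction p using MvPolynomial.induction_on with
  | C a => simpa using contDiff_const
  | add p q hp hq => simpa using hp.add hq
  | mul_X p i hp => simpa using hp.mul (contDiff_apply ℝ ℝ i)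

theorem contDiff_sumElim {a b : ℕ} (m : WithTop ℕ∞) :
    ContDiff ℝ m (fun p : (Fin a → ℝ) × (Fin b → ℝ) => (Sum.elim p.1 p.2 : Fin a ⊕ Fin b → ℝ)) := by
  rw [contDiff_pi]
  intro i
  cases i with
  | inl i => exact (contDiff_apply ℝ ℝ i).comp contDiff_fst
  | inr i => exact (contDiff_apply ℝ ℝ i).comp contDiff_snd

namespace NilLaw

variable (G : NilLaw n)

theorem contDiff_mul₂ (m : WithTop ℕ∞) :
    ContDiff ℝ m (fun p : (Fin n → ℝ) × (Fin n → ℝ) => G.mul p.1 p.2) := by
  rw [contDiff_pi]
  intro i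
  have h1 : ContDiff ℝ m (fun p : (Fin n → ℝ) × (Fin n → ℝ) => p.1 i) :=
    (contDiff_apply ℝ ℝ i).comp contDiff_fst
  have h2 : ContDiff ℝ m (fun p : (Fin n → ℝ) × (Fin n → ℝ) => p.2 i) :=
    (contDiff_apply ℝ ℝ i).comp contDiff_snd
  exact (h1.add h2).add ((contDiff_eval (G.P i) m).comp (contDiff_sumElim m))

theorem contDiff_mul {X : Type*} [NormedAddCommGroup X] [NormedSpace ℝ X] {m : WithTop ℕ∞}
    {f g : X → Fin n → ℝ} (hf : ContDiff ℝ m f) (hg : ContDiff ℝ m g) :
    ContDiff ℝ m (fun x => G.mul (f x) (g x)) :=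
  (G.contDiff_mul₂ m).comp (hf.prodMk hg)

theorem contDiff_mulLeft (x : Fin n → ℝ) (m : WithTop ℕ∞) : ContDiff ℝ m (G.mul x) :=
  G.contDiff_mul contDiff_const contDiff_id

/-! ### The group structure on a type synonym -/

/-- The underlying set of the group, as a type on which multiplication is the group law. -/
def Pt (_ : NilLaw n) : Type := Fin n → ℝ

noncomputable instance : Group G.Pt :=
  { mul := fun x y => (G.mul x y : Fin n → ℝ)
    one := (0 : Fin n → ℝ)
    inv := fun x => (G.inv x : Fin n → ℝ)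
    div := fun x y => (G.mul x (G.inv y) : Fin n → ℝ)
    mul_assoc := G.mul_assoc
    one_mul := G.zero_mul
    mul_one := G.mul_zero
    inv_mul_cancel := G.inv_mul
    div_eq_mul_inv := fun _ _ => rfl }

theorem Pt.mul_def (x y : G.Pt) : x * y = (G.mul x y : Fin n → ℝ) := rfl
theorem Pt.one_def : (1 : G.Pt) = (0 : Fin n → ℝ) := rfl
theorem Pt.inv_def (x : G.Pt) : x⁻¹ = (G.inv x : Fin n → ℝ) := rfl

theorem mulA (x y z : Fin n → ℝ) : G.mul (G.mul x y) z = G.mul x (G.mul y z) :=
  _root_.mul_assoc (G := G.Pt) x y z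
@[simp] theorem zeroMul (x : Fin n → ℝ) : G.mul 0 x = x := _root_.one_mul (M := G.Pt) x
@[simp] theorem mulZero (x : Fin n → ℝ) : G.mul x 0 = x := _root_.mul_one (M := G.Pt) x
@[simp] theorem invMul (x : Fin n → ℝ) : G.mul (G.inv x) x = 0 := inv_mul_cancel (G := G.Pt) x
@[simp] theorem mulInv (x : Fin n → ℝ) : G.mul x (G.inv x) = 0 := mul_inv_cancel (G := G.Pt) x
@[simp] theorem invInv (x : Fin n → ℝ) : G.inv (G.inv x) = x := inv_inv (G := G.Pt) x
@[simp] theorem invZero : G.inv 0 = 0 := inv_one (G := G.Pt)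
@[simp] theorem invMulCancelLeft (x y : Fin n → ℝ) : G.mul (G.inv x) (G.mul x y) = y :=
  inv_mul_cancel_left (G := G.Pt) x y
@[simp] theorem mulInvCancelLeft (x y : Fin n → ℝ) : G.mul x (G.mul (G.inv x) y) = y :=
  mul_inv_cancel_left (G := G.Pt) x y
theorem invMulRev (x y : Fin n → ℝ) : G.inv (G.mul x y) = G.mul (G.inv y) (G.inv x) :=
  mul_inv_rev (G := G.Pt) x y

theorem mul_injective (x : Fin n → ℝ) : Function.Injective (G.mul x) :=
  mul_right_injective (G := G.Pt) x

/-! ### Triangularity -/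

theorem mul_apply (x y : Fin n → ℝ) (i : Fin n) :
    G.mul x y i = x i + y i + eval (Sum.elim x y) (G.P i) := rfl

/-- Left translation as a homeomorphism. -/
noncomputable def lhomeo (x : Fin n → ℝ) : (Fin n → ℝ) ≃ₜ (Fin n → ℝ) where
  toFun := G.mul x
  invFun := G.mul (G.inv x)
  left_inv := G.invMulCancelLeft x
  right_inv := G.mulInvCancelLeft x
  continuous_toFun := (G.contDiff_mulLeft x 0).continuous
  continuous_invFun := (G.contDiff_mulLeft (G.inv x) 0).continuous

theorem differentiable_mulLeft (x : Fin n → ℝ) : Differentiable ℝ (G.mul x) :=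
  (G.contDiff_mulLeft x 1).differentiable (by norm_num)

/-- The matrix entries of the differential of a left translation. -/
theorem fderiv_mulLeft_apply (x y : Fin n → ℝ) (i j : Fin n) (hij : i ≤ j) :
    fderiv ℝ (G.mul x) y (Pi.single j 1) i = if i = j then 1 else 0 := by
  have hd := (G.differentiable_mulLeft x y).hasFDerivAt
  have h1 : HasDerivAt (fun s : ℝ => G.mul x (y + s • Pi.single j 1))
      (fderiv ℝ (G.mul x) y (Pi.single j 1)) 0 := by
    have hl : HasDerivAt (fun s : ℝ => y + s • (Pi.single j 1 : Fin n → ℝ))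
        (Pi.single j 1) 0 := by
      simpa using ((hasDerivAt_id (0 : ℝ)).smul_const (Pi.single j 1 : Fin n → ℝ)).const_add y
    have := HasFDerivAt.comp_hasDerivAt (x := (0 : ℝ)) (f := fun s : ℝ =>
      y + s • (Pi.single j 1 : Fin n → ℝ)) (l := G.mul x) (l' := fderiv ℝ (G.mul x) y)
      (by simpa using hd) hl
    exact this
  have h2 := (hasDerivAt_pi.1 h1) i
  have h3 : (fun s : ℝ => G.mul x (y + s • Pi.single j 1) i) =
      fun s : ℝ => G.mul x y i + s * (if i = j then 1 else 0) := by
    funext s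
    rw [mul_apply, mul_apply]
    have : eval (Sum.elim x (y + s • (Pi.single j 1 : Fin n → ℝ))) (G.P i)
        = eval (Sum.elim x y) (G.P i) := by
      apply G.tri i
      · intros; rfl
      · intro a ha
        have hne : a ≠ j := (lt_of_lt_of_le ha hij).ne
        simp [Pi.single_eq_of_ne hne]
    rw [this]
    by_cases h : i = j
    · subst h; simp; ring
    · simp [h]
  rw [h3] at h2
  have h4 : HasDerivAt (fun s : ℝ => G.mul x y i + s * (if i = j then 1 else 0))
      (if i = j then 1 else 0) 0 := by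
    simpa using ((hasDerivAt_id (0 : ℝ)).mul_const (if i = j then (1 : ℝ) else 0)).const_add
      (G.mul x y i)
  exact h2.unique h4

theorem det_fderiv_mulLeft (x y : Fin n → ℝ) : (fderiv ℝ (G.mul x) y).det = 1 := by
  have h : (fderiv ℝ (G.mul x) y).det =
      (Matrix.of fun i j => fderiv ℝ (G.mul x) y (Pi.single j 1) i).det := by
    rw [ContinuousLinearMap.det, ← LinearMap.det_toMatrix' ]
    congr 1
  rw [h, Matrix.det_of_isLowerTriangular]
  · apply Finset.prod_eq_one
    intro i _
    simpa using G.fderiv_mulLeft_apply x y i i le_rfl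
  · intro i j hij
    have hij' : i < j := hij
    simpa [hij'.ne] using G.fderiv_mulLeft_apply x y i j hij'.le

theorem volume_image_mulLeft (x : Fin n → ℝ) {s : Set (Fin n → ℝ)} (hs : MeasurableSet s) :
    volume (G.mul x '' s) = volume s := by
  have := lintegral_abs_det_fderiv_eq_addHaar_image volume hs
    (fun y _ => (G.differentiable_mulLeft x y).hasFDerivAt.hasFDerivWithinAt)
    (G.mul_injective x).injOn
  simpa [det_fderiv_mulLeft] using this.symm

theorem measurePreserving_mulLeft (x : Fin n → ℝ) :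
    MeasurePreserving (G.mul x) volume volume := by
  have hm : Measurable (G.mul x) := (G.lhomeo x).continuous.measurable
  refine ⟨hm, ?_⟩
  ext s hs
  rw [Measure.map_apply hm hs]
  have h1 : G.mul x ⁻¹' s = G.mul (G.inv x) '' s := by
    ext y
    constructor
    · intro hy
      exact ⟨G.mul x y, hy, by simp⟩
    · rintro ⟨z, hz, rfl⟩
      simpa using hz
  rw [h1, volume_image_mulLeft _ _ hs]

/-! ### Left division is polynomial and triangular -/

/-- Iterates converging to the left division polynomials. -/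
noncomputable def ldivIter : ℕ → Fin n → MvPolynomial (Fin n ⊕ Fin n) ℝ
  | 0 => 0
  | m + 1 => fun i => X (Sum.inr i) - X (Sum.inl i) -
      bind₁ (Sum.elim (fun j => X (Sum.inl j)) (ldivIter m)) (G.P i)

theorem eval_ldivIter_succ (x z : Fin n → ℝ) (m : ℕ) (i : Fin n) :
    eval (Sum.elim x z) (G.ldivIter (m + 1) i) = z i - x i -
      eval (Sum.elim x (fun j => eval (Sum.elim x z) (G.ldivIter m j))) (G.P i) := by
  have h : ∀ p : MvPolynomial (Fin n ⊕ Fin n) ℝ,
      eval (Sum.elim x z) (bind₁ (Sum.elim (fun j => X (Sum.inl j)) (G.ldivIter m)) p) =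
      eval (Sum.elim x (fun j => eval (Sum.elim x z) (G.ldivIter m j))) p := by
    intro p
    rw [← MvPolynomial.coe_aeval_eq_eval, ← MvPolynomial.coe_aeval_eq_eval, RingHom.coe_coe,
      RingHom.coe_coe, MvPolynomial.aeval_bind₁]
    congr 2
    funext j
    cases j <;> simp
  simp [ldivIter, h]

/-- Left division. -/
noncomputable def ldiv (x z : Fin n → ℝ) : Fin n → ℝ := G.mul (G.inv x) z

theorem ldiv_apply (x z : Fin n → ℝ) (i : Fin n) :
    G.ldiv x z i = z i - x i - eval (Sum.elim x (G.ldiv x z)) (G.P i) := by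
  have h : G.mul x (G.ldiv x z) i = z i := by simp [ldiv]
  rw [mul_apply] at h
  linarith

theorem eval_ldivIter (x z : Fin n → ℝ) (m : ℕ) :
    ∀ i : Fin n, (i : ℕ) < m → eval (Sum.elim x z) (G.ldivIter m i) = G.ldiv x z i := by
  induction m with
  | zero => intro i hi; omega
  | succ m ih =>
    intro i hi
    rw [eval_ldivIter_succ, ldiv_apply]
    congr 1
    apply G.tri i
    · intros; rfl
    · intro j hj
      exact ih j (by have : (j : ℕ) < i := hj; omega)

/-- The polynomials giving left division. -/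
noncomputable def Q (i : Fin n) : MvPolynomial (Fin n ⊕ Fin n) ℝ := G.ldivIter n i

theorem eval_Q (x z : Fin n → ℝ) (i : Fin n) : eval (Sum.elim x z) (G.Q i) = G.ldiv x z i :=
  G.eval_ldivIter x z n i i.2

theorem ldiv_tri (x x' z z' : Fin n → ℝ) : ∀ i : Fin n, (∀ j, j < i → x j = x' j) →
    (∀ j, j < i → z j = z' j) →
    G.ldiv x z i - z i + x i = G.ldiv x' z' i - z' i + x' i := by
  intro i
  induction i using WellFoundedLT.induction with
  | ind i ih =>
    intro hx hz
    have hy : ∀ j < i, G.ldiv x z j = G.ldiv x' z' j := fun j hj => by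
      have := ih j hj (fun a ha => hx a (ha.trans hj)) (fun a ha => hz a (ha.trans hj))
      rw [hx j hj, hz j hj] at this
      linarith
    rw [ldiv_apply, ldiv_apply, G.tri i x x' _ _ hx hy]
    ring

theorem ldiv_zero_left (z : Fin n → ℝ) : G.ldiv 0 z = z := by simp [ldiv]
theorem ldiv_self (z : Fin n → ℝ) : G.ldiv z z = 0 := by simp [ldiv]

theorem contDiff_ldiv₂ (m : WithTop ℕ∞) :
    ContDiff ℝ m (fun p : (Fin n → ℝ) × (Fin n → ℝ) => G.ldiv p.1 p.2) := by
  have h : (fun p : (Fin n → ℝ) × (Fin n → ℝ) => G.ldiv p.1 p.2) =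
      fun p => fun i => eval (Sum.elim p.1 p.2) (G.Q i) := by
    funext p i
    rw [eval_Q]
  rw [h, contDiff_pi]
  intro i
  exact (contDiff_eval (G.Q i) m).comp (contDiff_sumElim m)

theorem contDiff_inv (m : WithTop ℕ∞) : ContDiff ℝ m G.inv := by
  have h : G.inv = fun x => G.ldiv x 0 := by
    funext x
    simp [ldiv]
  rw [h]
  exact (G.contDiff_ldiv₂ m).comp (contDiff_id.prodMk contDiff_const)

/-! ### The left-invariant metric -/

theorem triv_eq (x v : Fin n → ℝ) : G.triv x v = fderiv ℝ (G.mul (G.inv x)) x v := rfl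

theorem fderiv_comp_mulLeft (a b y v : Fin n → ℝ) :
    fderiv ℝ (G.mul a) (G.mul b y) (fderiv ℝ (G.mul b) y v) =
      fderiv ℝ (G.mul (G.mul a b)) y v := by
  have h : G.mul (G.mul a b) = G.mul a ∘ G.mul b := by
    funext z
    simp [mulA]
  rw [h, fderiv_comp _ (G.differentiable_mulLeft a _) (G.differentiable_mulLeft b _)]
  rfl

theorem fderiv_mul_zero_left (y v : Fin n → ℝ) : fderiv ℝ (G.mul 0) y v = v := by
  have h : G.mul 0 = id := by
    funext z
    simp
  rw [h, fderiv_id]
  rfl

theorem triv_mulLeft (g x v : Fin n → ℝ) :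
    G.triv (G.mul g x) (fderiv ℝ (G.mul g) x v) = G.triv x v := by
  rw [triv_eq, fderiv_comp_mulLeft, triv_eq]
  congr 2
  rw [invMulRev, mulA]
  simp

theorem triv_fderiv_zero (x v : Fin n → ℝ) : G.triv x (fderiv ℝ (G.mul x) 0 v) = v := by
  have := G.triv_mulLeft x 0 v
  rw [mulZero] at this
  rw [this, triv_eq, invZero, fderiv_mul_zero_left]

theorem fderiv_zero_triv (x v : Fin n → ℝ) : fderiv ℝ (G.mul x) 0 (G.triv x v) = v := by
  rw [triv_eq]
  have h := G.fderiv_comp_mulLeft x (G.inv x) x v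
  rw [invMul, mulInv, fderiv_mul_zero_left] at h
  exact h

theorem metric_mulLeft (B : Matrix (Fin n) (Fin n) ℝ) (g x v w : Fin n → ℝ) :
    G.metric B (G.mul g x) (fderiv ℝ (G.mul g) x v) (fderiv ℝ (G.mul g) x w) =
      G.metric B x v w := by
  simp [metric, triv_mulLeft]

/-- The derivative of a left translate, at every point. -/
theorem fderiv_mulLeft_comp (g : Fin n → ℝ) (f : (Fin k → ℝ) → (Fin n → ℝ)) (t v : Fin k → ℝ) :
    fderiv ℝ (fun s => G.mul g (f s)) t v = fderiv ℝ (G.mul g) (f t) (fderiv ℝ f t v) := by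
  by_cases hf : DifferentiableAt ℝ f t
  · have := fderiv_comp (𝕜 := ℝ) t (G.differentiable_mulLeft g (f t)) hf
    have h2 : (fun s => G.mul g (f s)) = G.mul g ∘ f := rfl
    rw [h2, this]
    rfl
  · have h2 : ¬ DifferentiableAt ℝ (fun s => G.mul g (f s)) t := by
      intro h
      apply hf
      have h3 : f = fun s => G.mul (G.inv g) (G.mul g (f s)) := by
        funext s
        simp
      rw [h3]
      exact (G.differentiable_mulLeft (G.inv g) _).comp t h
    rw [fderiv_zero_of_not_differentiableAt hf, fderiv_zero_of_not_differentiableAt h2]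
    simp

theorem gram_mulLeft (B : Matrix (Fin n) (Fin n) ℝ) (g : Fin n → ℝ)
    (f : (Fin k → ℝ) → (Fin n → ℝ)) (t : Fin k → ℝ) :
    G.gram B (fun s => G.mul g (f s)) t = G.gram B f t := by
  ext i j
  simp only [gram, Matrix.of_apply, fderiv_mulLeft_comp, metric_mulLeft]

end NilLaw

end Pool.Agent.TH630
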