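import Mathlib

/-!
# Filling functions of simply connected nilpotent Lie groups: definitions

A connected, simply connected nilpotent Lie group of dimension `n` is given in triangular
polynomial coordinates (for instance Malcev coordinates along a central series): its underlying
manifold is the space of real `n`-vectors and its law is
`(x y)_i = x_i + y_i + P_i (x, y)`, with `P_i` a polynomial depending only on the
coordinates of `x` and `y` of index less than `i`.
-/

open scoped ENNReal NNReal

namespace Pool.Agent.TH630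

variable {n k : ℕ}

/-- The operation `(x y)_i = x_i + y_i + P_i (x, y)` on real `n`-space. -/
noncomputable def triMul (P : Fin n → MvPolynomial (Fin n ⊕ Fin n) ℝ) (x y : Fin n → ℝ) :
    Fin n → ℝ :=
  fun i => x i + y i + MvPolynomial.eval (Sum.elim x y) (P i)

/-- A group law on real `n`-space of triangular polynomial form. -/
structure NilLaw (n : ℕ) where
  /-- the polynomial corrections to addition -/
  P : Fin n → MvPolynomial (Fin n ⊕ Fin n) ℝ
  /-- `P i` depends only on the coordinates of index less than `i` -/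
  tri : ∀ (i : Fin n) (x x' y y' : Fin n → ℝ),
    (∀ j, j < i → x j = x' j) → (∀ j, j < i → y j = y' j) →
      MvPolynomial.eval (Sum.elim x y) (P i) = MvPolynomial.eval (Sum.elim x' y') (P i)
  /-- the inverse map -/
  inv : (Fin n → ℝ) → (Fin n → ℝ)
  zero_mul : ∀ x, triMul P 0 x = x
  mul_zero : ∀ x, triMul P x 0 = x
  inv_mul : ∀ x, triMul P (inv x) x = 0
  mul_assoc : ∀ x y z, triMul P (triMul P x y) z = triMul P x (triMul P y z)

/-- The product of the group. -/
noncomputable def NilLaw.mul (G : NilLaw n) (x y : Fin n → ℝ) : Fin n → ℝ := triMul G.P x y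

/-- The differential at `x` of the left translation by the inverse of `x`; it identifies the
tangent space at `x` with the tangent space at the identity `0`. -/
noncomputable def NilLaw.triv (G : NilLaw n) (x v : Fin n → ℝ) : Fin n → ℝ :=
  fderiv ℝ (fun y => G.mul (G.inv x) y) x v

/-- The left-invariant Riemannian metric whose value at the identity is the bilinear form of
matrix `B`, evaluated at the tangent vectors `v`, `w` at `x`. -/
noncomputable def NilLaw.metric (G : NilLaw n) (B : Matrix (Fin n) (Fin n) ℝ)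
    (x v w : Fin n → ℝ) : ℝ :=
  G.triv x v ⬝ᵥ (B.mulVec (G.triv x w))

/-- A Lipschitz `k`-simplex in real `n`-space (a map from the standard simplex to the group is
Lipschitz for a left-invariant Riemannian metric exactly when it is for the norm). -/
@[ext]
structure LipSimplex (n k : ℕ) where
  /-- the underlying map on the standard simplex -/
  toFun : stdSimplex ℝ (Fin (k + 1)) → (Fin n → ℝ)
  lip : ∃ K : ℝ≥0, LipschitzWith K toFun

/-- The `i`-th face inclusion of standard simplices: insert the coordinate `0` at place `i`. -/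
def faceMap (i : Fin (k + 2)) (t : stdSimplex ℝ (Fin (k + 1))) : stdSimplex ℝ (Fin (k + 2)) :=
  ⟨i.insertNth (0 : ℝ) t.1, by
    refine ⟨fun j => ?_, ?_⟩
    · refine Fin.succAboveCases i ?_ (fun j => ?_) j
      · simp
      · simpa using t.2.1 j
    · rw [Fin.sum_univ_succAbove _ i]
      simpa using t.2.2⟩

theorem faceMap_lipschitz (i : Fin (k + 2)) :
    LipschitzWith 1 (faceMap i : stdSimplex ℝ (Fin (k + 1)) → _) := by
  refine LipschitzWith.mk_one fun s t => ?_
  have h0 : (0 : ℝ) ≤ dist s t := dist_nonneg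
  rw [Subtype.dist_eq]
  refine (dist_pi_le_iff h0).2 fun j => ?_
  refine Fin.succAboveCases i ?_ (fun j => ?_) j
  · simp [faceMap]
  · have := dist_le_pi_dist s.1 t.1 j
    simpa [faceMap, Subtype.dist_eq] using this

/-- The `i`-th face of a Lipschitz simplex. -/
def LipSimplex.face (σ : LipSimplex n (k + 1)) (i : Fin (k + 2)) : LipSimplex n k :=
  ⟨fun t => σ.toFun (faceMap i t), by
    obtain ⟨K, hK⟩ := σ.lip
    exact ⟨K * 1, hK.comp (faceMap_lipschitz i)⟩⟩

/-- Lipschitz `k`-chains with integer coefficients. -/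
abbrev Chain (n k : ℕ) := LipSimplex n k →₀ ℤ

/-- The boundary of a Lipschitz chain. -/
noncomputable def bdry (c : Chain n (k + 1)) : Chain n k :=
  c.sum fun σ a => ∑ i : Fin (k + 2), Finsupp.single (σ.face i) ((-1) ^ (i : ℕ) * a)

/-- Cycles: chains with boundary zero (every `0`-chain is a cycle). -/
def IsCycle : {k : ℕ} → Chain n k → Prop
  | 0, _ => True
  | _ + 1, c => bdry c = 0

/-- The `k`-simplex in coordinates: the `t` in real `k`-space with nonnegative entries and sum
at most `1`. -/
def corner (k : ℕ) : Set (Fin k → ℝ) := {t | (∀ i, 0 ≤ t i) ∧ ∑ i, t i ≤ 1}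

/-- The barycentric coordinates `(1 - ∑ t_i, t_1, …, t_k)` of a point `t`. -/
def bary (t : Fin k → ℝ) : Fin (k + 1) → ℝ := Fin.cons (1 - ∑ i, t i) t

open Classical in
/-- A Lipschitz simplex in the coordinates of `corner k` (extended by `0` off `corner k`). -/
noncomputable def LipSimplex.param (σ : LipSimplex n k) (t : Fin k → ℝ) : Fin n → ℝ :=
  if h : bary t ∈ stdSimplex ℝ (Fin (k + 1)) then σ.toFun ⟨bary t, h⟩ else 0

/-- The Gram matrix of the partial derivatives of `f` at `t` in the left-invariant metric. -/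
noncomputable def NilLaw.gram (G : NilLaw n) (B : Matrix (Fin n) (Fin n) ℝ)
    (f : (Fin k → ℝ) → (Fin n → ℝ)) (t : Fin k → ℝ) : Matrix (Fin k) (Fin k) ℝ :=
  Matrix.of fun i j =>
    G.metric B (f t) (fderiv ℝ f t (Pi.single i 1)) (fderiv ℝ f t (Pi.single j 1))

/-- The Riemannian `k`-volume of a Lipschitz `k`-simplex. -/
noncomputable def NilLaw.vol (G : NilLaw n) (B : Matrix (Fin n) (Fin n) ℝ)
    (σ : LipSimplex n k) : ℝ≥0∞ :=
  ∫⁻ t in corner k, ENNReal.ofReal (√ (G.gram B σ.param t).det)

/-- The mass of a Lipschitz chain. -/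
noncomputable def NilLaw.mass (G : NilLaw n) (B : Matrix (Fin n) (Fin n) ℝ)
    (c : Chain n k) : ℝ≥0∞ :=
  c.sum fun σ a => (a.natAbs : ℝ≥0∞) * G.vol B σ

/-- The `(k+1)`-dimensional filling volume function: the supremum over Lipschitz `k`-cycles of
mass at most `ℓ` of the infimal mass of a Lipschitz `(k+1)`-chain which they bound. -/
noncomputable def NilLaw.FV (G : NilLaw n) (B : Matrix (Fin n) (Fin n) ℝ) (k : ℕ) (ℓ : ℝ) :
    ℝ≥0∞ :=
  ⨆ (a : Chain n k) (_ : IsCycle a) (_ : G.mass B a ≤ ENNReal.ofReal ℓ),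
    ⨅ (b : Chain n (k + 1)) (_ : bdry b = a), G.mass B b

/-- The `(k+1)`-dimensional filling volume function grows faster than `ℓ ^ ((k+1)/k)`. -/
def NilLaw.SuperEuclidean (G : NilLaw n) (B : Matrix (Fin n) (Fin n) ℝ) (k : ℕ) : Prop :=
  ¬ ∃ C : ℝ, 0 < C ∧ ∀ ℓ : ℝ, 0 ≤ ℓ →
    G.FV B k ℓ ≤ ENNReal.ofReal (C * (C * ℓ) ^ (((k : ℝ) + 1) / k) + C * ℓ + C)

end Pool.Agent.TH630
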