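import Pool.Agent.TH630.Fill.Net

open MeasureTheory MvPolynomial
open scoped ENNReal NNReal Topology

namespace Pool.Agent.TH630

variable {n m : ℕ}

/-! ### Determinants -/

theorem det_bound (A : Matrix (Fin (m + 1)) (Fin (m + 1)) ℝ) (Z : Fin (m + 1) → ℝ)
    (j0 : Fin (m + 1)) (hZ : Z j0 ≠ 0) {a b : ℝ} (ha : 0 < a) (hb : 0 < b)
    (h1 : ∀ i j, |A i j| ≤ a) (h2 : ∀ i, |∑ j, A i j * Z j| ≤ b) :
    |A.det| ≤ (m + 1).factorial * a ^ m * b / |Z j0| := by
  have hupd : (A.updateCol j0 (A.mulVec Z)).det = Z j0 * A.det := by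
    have h3 : (A.updateCol j0 (A.mulVec Z)).det = A.cramer (A.mulVec Z) j0 :=
      (Matrix.cramer_apply A (A.mulVec Z) j0).symm
    rw [h3, Matrix.cramer_eq_adjugate_mulVec, Matrix.mulVec_mulVec, Matrix.adjugate_mul,
      Matrix.smul_mulVec, Matrix.one_mulVec, Pi.smul_apply, smul_eq_mul, mul_comm]
  have hupd2 : (A.updateCol j0 ((a / b) • A.mulVec Z)).det = (a / b) * (Z j0 * A.det) := by
    rw [Matrix.det_updateCol_smul, hupd]
  have h4 : |(A.updateCol j0 ((a / b) • A.mulVec Z)).det| ≤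
      (m + 1).factorial * a ^ (m + 1) := by
    have := Matrix.det_le (A := A.updateCol j0 ((a / b) • A.mulVec Z)) (abv := AbsoluteValue.abs)
      (x := a) (by
        intro i j
        rw [Matrix.updateCol_apply]
        split_ifs with hj
        · have h5 : |A.mulVec Z i| ≤ b := h2 i
          show |(a / b) • A.mulVec Z i| ≤ a
          rw [smul_eq_mul, abs_mul, abs_of_pos (div_pos ha hb)]
          calc a / b * |A.mulVec Z i| ≤ a / b * b := by gcongr
            _ = a := by field_simp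
        · exact h1 i j)
    simpa using this
  rw [hupd2, abs_mul, abs_mul, abs_of_pos (div_pos ha hb)] at h4
  rw [le_div_iff₀ (abs_pos.2 hZ)]
  have h5 : a / b * (|Z j0| * |A.det|) = (|A.det| * |Z j0|) * (a / b) := by ring
  rw [h5, ← le_div_iff₀ (div_pos ha hb)] at h4
  refine h4.trans (le_of_eq ?_)
  field_simp
  ring

theorem det_rows_comp (φ : Fin n → (Fin n → ℝ) →L[ℝ] ℝ) (W : (Fin n → ℝ) →L[ℝ] (Fin n → ℝ)) :
    (Matrix.of fun i j => φ i (W (Pi.single j 1))).det =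
      (Matrix.of fun i j => φ i (Pi.single j 1)).det * W.det := by
  have h : (Matrix.of fun i j => φ i (W (Pi.single j 1))) =
      (Matrix.of fun i j => φ i (Pi.single j 1)) * LinearMap.toMatrix' (W : (Fin n → ℝ) →ₗ[ℝ] _) := by
    ext i j
    rw [Matrix.of_apply, Matrix.mul_apply]
    have h1 : W (Pi.single j 1) = ∑ k, (W (Pi.single j 1) k) • (Pi.single k 1 : Fin n → ℝ) := by
      conv_lhs => rw [pi_eq_sum_univ' (W (Pi.single j 1))]
    rw [h1, map_sum]
    refine Finset.sum_congr rfl fun k _ => ?_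
    rw [map_smul, smul_eq_mul, mul_comm, Matrix.of_apply]
    congr 1
  rw [h, Matrix.det_mul, LinearMap.det_toMatrix']

theorem det_clm_eq (L : (Fin n → ℝ) →L[ℝ] (Fin n → ℝ)) :
    L.det = (Matrix.of fun i j => L (Pi.single j 1) i).det := by
  rw [ContinuousLinearMap.det, ← LinearMap.det_toMatrix']
  congr 1

/-! ### Left-invariant derivatives -/

namespace NilLaw

variable (G : NilLaw n)

/-- The differential at the identity of the left translation by `x`. -/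
noncomputable def W (x : Fin n → ℝ) : (Fin n → ℝ) →L[ℝ] (Fin n → ℝ) := fderiv ℝ (G.mul x) 0

theorem det_W (x : Fin n → ℝ) : (G.W x).det = 1 := G.det_fderiv_mulLeft x 0

theorem hasDerivAt_curve (x : Fin n → ℝ) (u : (Fin n → ℝ) → ℝ) (hu : DifferentiableAt ℝ u x)
    (γ : ℝ → Fin n → ℝ) (v : Fin n → ℝ) (hγ0 : γ 0 = 0) (hγ : HasDerivAt γ v 0) :
    HasDerivAt (fun s => u (G.mul x (γ s))) (fderiv ℝ u x (G.W x v)) 0 := by
  have h1 : HasFDerivAt (G.mul x) (G.W x) (γ 0) := by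
    rw [hγ0]
    exact (G.differentiable_mulLeft x 0).hasFDerivAt
  have h2 := h1.comp_hasDerivAt (0 : ℝ) hγ
  have h3 : HasFDerivAt u (fderiv ℝ u x) ((G.mul x ∘ γ) 0) := by
    simp only [Function.comp, hγ0, mulZero]
    exact hu.hasFDerivAt
  exact h3.comp_hasDerivAt (0 : ℝ) h2

theorem abs_fderiv_le (x : Fin n → ℝ) (u : (Fin n → ℝ) → ℝ) (hu : DifferentiableAt ℝ u x)
    (γ : ℝ → Fin n → ℝ) (v : Fin n → ℝ) (hγ0 : γ 0 = 0) (hγ : HasDerivAt γ v 0) (L : ℝ)
    (hL : 0 ≤ L) (hlip : ∀ᶠ s : ℝ in 𝓝 0, |u (G.mul x (γ s)) - u x| ≤ L * |s|) :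
    |fderiv ℝ u x (G.W x v)| ≤ L := by
  have h := G.hasDerivAt_curve x u hu γ v hγ0 hγ
  have h2 := h.le_of_lip' hL (by
    filter_upwards [hlip] with s hs
    simpa [hγ0, Real.norm_eq_abs] using hs)
  simpa [Real.norm_eq_abs] using h2

theorem exists_frame_bound : ∃ C2 : ℝ, 0 < C2 ∧ ∀ (x : Fin n → ℝ) (u : (Fin n → ℝ) → ℝ),
    DifferentiableAt ℝ u x → ∀ L : ℝ, 0 ≤ L → (∀ y, |u (G.mul x y) - u x| ≤ L * G.nrm y) →
    ∀ j, |fderiv ℝ u x (G.W x (Pi.single j 1))| ≤ C2 * L := by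
  obtain ⟨δ, hδ, C, hC, hb⟩ := nrm_le_small G
  refine ⟨C, hC, fun x u hu L hL hlip j => ?_⟩
  have hγ : HasDerivAt (fun s : ℝ => s • (Pi.single j 1 : Fin n → ℝ)) (Pi.single j 1) 0 := by
    simpa using (hasDerivAt_id (0 : ℝ)).smul_const (Pi.single j 1 : Fin n → ℝ)
  refine G.abs_fderiv_le x u hu _ _ (by simp) hγ (C * L) (by positivity) ?_
  have hn : ∀ s : ℝ, ‖s • (Pi.single j 1 : Fin n → ℝ)‖ = |s| := by
    intro s
    rw [norm_smul, Pi.norm_single, norm_one, mul_one, Real.norm_eq_abs]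
  have h0 : ∀ᶠ s : ℝ in 𝓝 0, |s| < δ := by
    have := Metric.ball_mem_nhds (0 : ℝ) hδ
    filter_upwards [this] with s hs
    simpa using hs
  filter_upwards [h0] with s hs
  refine (hlip _).trans ?_
  have h1 := hb (s • (Pi.single j 1 : Fin n → ℝ)) (by rw [hn]; exact hs.le)
  rw [hn] at h1
  calc L * G.nrm (s • Pi.single j 1) ≤ L * (C * |s|) := by gcongr
    _ = C * L * |s| := by ring

/-- Functions which are Lipschitz for left translations are locally Lipschitz. -/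
theorem locallyLipschitz_of_left (u : (Fin n → ℝ) → ℝ) (L : ℝ) (hL : 0 ≤ L)
    (hu : ∀ x y, |u (G.mul x y) - u x| ≤ L * G.nrm y) : LocallyLipschitz u := by
  obtain ⟨δ, hδ, C, hC, hb⟩ := nrm_le_small G
  intro x0
  -- the left division is locally Lipschitz
  have h1 : LocallyLipschitz fun p : (Fin n → ℝ) × (Fin n → ℝ) => G.ldiv p.1 p.2 :=
    (G.contDiff_ldiv₂ 1).locallyLipschitz
  obtain ⟨K, t, ht, hK⟩ := h1 (x0, x0)
  have h2 : ∀ᶠ p : (Fin n → ℝ) × (Fin n → ℝ) in 𝓝 (x0, x0), ‖G.ldiv p.1 p.2‖ < δ := by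
    have h3 : Continuous fun p : (Fin n → ℝ) × (Fin n → ℝ) => ‖G.ldiv p.1 p.2‖ :=
      (G.contDiff_ldiv₂ 0).continuous.norm
    have h4 := h3.tendsto (x0, x0)
    simp only [ldiv_self, norm_zero] at h4
    exact h4.eventually (gt_mem_nhds hδ)
  have h3 : ∀ᶠ p : (Fin n → ℝ) × (Fin n → ℝ) in 𝓝 (x0, x0), p ∈ t := ht
  obtain ⟨ε, hε, h4⟩ := Metric.eventually_nhds_iff.1 (h2.and h3)
  refine ⟨⟨L * (C * K), by positivity⟩, Metric.ball x0 ε, Metric.ball_mem_nhds x0 hε, ?_⟩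
  apply LipschitzOnWith.of_dist_le_mul
  intro y hy x hx
  have hxy : dist (x, y) (x0, x0) < ε := by
    rw [Prod.dist_eq]
    exact max_lt hx hy
  have hxx : dist (x, x) (x0, x0) < ε := by
    rw [Prod.dist_eq]
    exact max_lt hx hx
  obtain ⟨h5, h6⟩ := h4 hxy
  obtain ⟨_, h7⟩ := h4 hxx
  have h8 := hK.dist_le_mul _ h6 _ h7
  simp only [ldiv_self, dist_zero_right, Prod.dist_eq, dist_self] at h8
  rw [max_eq_right dist_nonneg] at h8
  have h9 := hu x (G.ldiv x y)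
  have h10 : G.mul x (G.ldiv x y) = y := by rw [ldiv, mulInvCancelLeft]
  rw [h10] at h9
  rw [Real.dist_eq]
  have h11 := hb _ h5.le
  show |u y - u x| ≤ L * (C * K) * dist y x
  calc |u y - u x| ≤ L * G.nrm (G.ldiv x y) := h9
    _ ≤ L * (C * (K * dist y x)) := by gcongr; exact h11.trans (by gcongr)
    _ = _ := by ring

/-- The cutoff function of the ball of radius `R`. -/
noncomputable def cut (R : ℝ) (x : Fin n → ℝ) : ℝ := max 0 (min 1 (R + 1 - G.nrm x))

theorem cut_nonneg (R : ℝ) (x : Fin n → ℝ) : 0 ≤ G.cut R x := le_max_left _ _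
theorem cut_le_one (R : ℝ) (x : Fin n → ℝ) : G.cut R x ≤ 1 :=
  max_le zero_le_one (min_le_left _ _)
theorem cut_eq_one {R : ℝ} {x : Fin n → ℝ} (h : G.nrm x ≤ R) : G.cut R x = 1 := by
  rw [cut, min_eq_left (by linarith), max_eq_right zero_le_one]
theorem cut_eq_zero {R : ℝ} {x : Fin n → ℝ} (h : R + 1 ≤ G.nrm x) : G.cut R x = 0 := by
  rw [cut, max_eq_left]
  exact (min_le_right _ _).trans (by linarith)

theorem abs_nrm_sub_le (x y : Fin n → ℝ) : |G.nrm (G.mul x y) - G.nrm x| ≤ G.nrm y := by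
  have h1 := nrm_mul_le G x y
  have h2 := nrm_mul_le G (G.mul x y) (G.inv y)
  rw [mulA, mulInv, mulZero, nrm_inv] at h2
  rw [abs_le]
  constructor <;> linarith

theorem cut_lip (R : ℝ) (x y : Fin n → ℝ) : |G.cut R (G.mul x y) - G.cut R x| ≤ G.nrm y := by
  have h0 := nrm_nonneg G y
  refine (abs_max_sub_max_le_max _ _ _ _).trans ?_
  simp only [sub_self, abs_zero]
  refine max_le h0 ((abs_min_sub_min_le_max _ _ _ _).trans ?_)
  simp only [sub_self, abs_zero]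
  refine max_le h0 ?_
  have h1 := G.abs_nrm_sub_le x y
  have h2 : R + 1 - G.nrm (G.mul x y) - (R + 1 - G.nrm x) = -(G.nrm (G.mul x y) - G.nrm x) := by
    ring
  rwa [h2, abs_neg]

end NilLaw

end Pool.Agent.TH630
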