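import Pool.Agent.TH630.Fill.Inputs

open MeasureTheory MvPolynomial
open scoped ENNReal NNReal Topology

namespace Pool.Agent.TH630

variable {n k : ℕ}

/-- A quadratically distorted central one-parameter subgroup. -/
structure Distorted (G : NilLaw n) where
  z : ℝ → Fin n → ℝ
  Z : Fin n → ℝ
  hZ : Z ≠ 0
  hz : HasDerivAt z Z 0
  add : ∀ s t, z (s + t) = G.mul (z s) (z t)
  central : ∀ s x, G.mul (z s) x = G.mul x (z s)
  C : ℝ
  hC : 0 < C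
  bound : ∀ τ : ℝ, G.nrm (z τ) ≤ C * (1 + √ |τ|)

theorem nrm_bounded (G : NilLaw n) (r : ℝ) : ∃ C : ℝ, ∀ x : Fin n → ℝ, ‖x‖ ≤ r → G.nrm x ≤ C := by
  obtain ⟨C, hC⟩ := (isCompact_closedBall (0 : Fin n → ℝ) r).bddAbove_image
    (continuous_nrm G).continuousOn
  exact ⟨C, fun x hx => hC ⟨x, by simpa using hx, rfl⟩⟩

theorem exists_Distorted (G : NilLaw n) (hG : ∃ x y, G.mul x y ≠ G.mul y x) :
    Nonempty (Distorted G) := by
  obtain ⟨z, Z, h1, h2, h3, h4, C, h5, h6⟩ := exists_distorted G hG G.nrm (nrm_nonneg G)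
    (nrm_mul_le G) (nrm_inv G) (nrm_bounded G)
  exact ⟨⟨z, Z, h1, h2, h3, h4, C, h5, h6⟩⟩

namespace Distorted

variable {G : NilLaw n} (D : Distorted G)

theorem z_zero : D.z 0 = 0 := by
  have h := D.add 0 0
  rw [add_zero] at h
  have h2 : G.ldiv (D.z 0) (D.z 0) = G.ldiv (D.z 0) (G.mul (D.z 0) (D.z 0)) :=
    congrArg (G.ldiv (D.z 0)) h
  rw [NilLaw.ldiv_self, NilLaw.ldiv, NilLaw.invMulCancelLeft] at h2
  exact h2.symm

theorem mul_z_neg (s : ℝ) : G.mul (D.z s) (D.z (-s)) = 0 := by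
  rw [← D.add, add_neg_cancel, D.z_zero]

theorem inv_z (s : ℝ) : G.inv (D.z s) = D.z (-s) := by
  have h := G.invMulCancelLeft (D.z s) (D.z (-s))
  rw [mul_z_neg, NilLaw.mulZero] at h
  exact h

/-- The gauge at scale `ρ`: the distorted direction is rescaled by `ρ ^ 2`. -/
noncomputable def Nr (ρ : ℝ) (x : Fin n → ℝ) : ℝ :=
  ⨅ τ : ℝ, (G.nrm (G.mul x (D.z τ)) + |τ| / ρ)

variable {ρ : ℝ}

theorem bddBelow (hρ : 0 < ρ) (x : Fin n → ℝ) :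
    BddBelow (Set.range fun τ : ℝ => G.nrm (G.mul x (D.z τ)) + |τ| / ρ) := by
  refine ⟨0, ?_⟩
  rintro _ ⟨τ, rfl⟩
  have := nrm_nonneg G (G.mul x (D.z τ))
  positivity

theorem Nr_nonneg (hρ : 0 < ρ) (x : Fin n → ℝ) : 0 ≤ D.Nr ρ x := by
  apply Real.iInf_nonneg
  intro τ
  have := nrm_nonneg G (G.mul x (D.z τ))
  positivity

theorem Nr_le (hρ : 0 < ρ) (x : Fin n → ℝ) (τ : ℝ) :
    D.Nr ρ x ≤ G.nrm (G.mul x (D.z τ)) + |τ| / ρ := ciInf_le (D.bddBelow hρ x) τ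

theorem Nr_le_nrm (hρ : 0 < ρ) (x : Fin n → ℝ) : D.Nr ρ x ≤ G.nrm x := by
  have := D.Nr_le hρ x 0
  simpa [D.z_zero] using this

theorem exists_near_Nr (x : Fin n → ℝ) {ε : ℝ} (hε : 0 < ε) :
    ∃ τ : ℝ, G.nrm (G.mul x (D.z τ)) + |τ| / ρ < D.Nr ρ x + ε :=
  exists_lt_of_ciInf_lt (lt_add_of_pos_right _ hε)

theorem Nr_mul_le (hρ : 0 < ρ) (x y : Fin n → ℝ) : D.Nr ρ (G.mul x y) ≤ D.Nr ρ x + D.Nr ρ y := by
  apply le_of_forall_pos_le_add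
  intro ε hε
  obtain ⟨s, hs⟩ := D.exists_near_Nr (ρ := ρ) x (half_pos hε)
  obtain ⟨t, ht⟩ := D.exists_near_Nr (ρ := ρ) y (half_pos hε)
  have h1 := D.Nr_le hρ (G.mul x y) (s + t)
  have h2 : G.mul (G.mul x y) (D.z (s + t)) = G.mul (G.mul x (D.z s)) (G.mul y (D.z t)) := by
    rw [D.add, G.mulA x y, ← G.mulA y (D.z s), ← D.central s y, G.mulA (D.z s) y, ← G.mulA x]
  rw [h2] at h1
  have h3 := nrm_mul_le G (G.mul x (D.z s)) (G.mul y (D.z t))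
  have h4 : |s + t| / ρ ≤ |s| / ρ + |t| / ρ := by
    rw [← add_div]
    gcongr
    exact abs_add_le s t
  linarith

theorem Nr_inv_le (hρ : 0 < ρ) (x : Fin n → ℝ) : D.Nr ρ (G.inv x) ≤ D.Nr ρ x := by
  apply le_of_forall_pos_le_add
  intro ε hε
  obtain ⟨s, hs⟩ := D.exists_near_Nr (ρ := ρ) x hε
  have h1 := D.Nr_le hρ (G.inv x) (-s)
  have h2 : G.mul (G.inv x) (D.z (-s)) = G.inv (G.mul x (D.z s)) := by
    rw [G.invMulRev, D.inv_z, D.central]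
  rw [h2, nrm_inv, abs_neg] at h1
  linarith

theorem Nr_inv (hρ : 0 < ρ) (x : Fin n → ℝ) : D.Nr ρ (G.inv x) = D.Nr ρ x := by
  apply le_antisymm (D.Nr_inv_le hρ x)
  have := D.Nr_inv_le hρ (G.inv x)
  rwa [G.invInv] at this

theorem Nr_z_le (hρ : 0 < ρ) (s : ℝ) : D.Nr ρ (D.z s) ≤ |s| / ρ := by
  have := D.Nr_le hρ (D.z s) (-s)
  rwa [D.mul_z_neg, nrm_zero, abs_neg, zero_add] at this

theorem Nr_zero (hρ : 0 < ρ) : D.Nr ρ 0 = 0 := by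
  apply le_antisymm _ (D.Nr_nonneg hρ 0)
  have := D.Nr_le_nrm hρ 0
  rwa [nrm_zero] at this

/-- Comparison of the gauge and the norm at scale `ρ`. -/
theorem nrm_le_of_Nr (c : ℝ) (hc : 0 ≤ c) : ∃ K : ℝ, 0 < K ∧ ∀ ρ : ℝ, 1 ≤ ρ → ∀ x : Fin n → ℝ,
    D.Nr ρ x ≤ c * ρ → G.nrm x < K * ρ := by
  refine ⟨(c + 1) + D.C * (1 + √ (c + 1)) + 1, by have := D.hC; positivity, fun ρ hρ x hx => ?_⟩
  have hρ0 : 0 < ρ := by linarith
  obtain ⟨τ, hτ⟩ := D.exists_near_Nr (ρ := ρ) x one_pos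
  have h0 : D.Nr ρ x + 1 ≤ (c + 1) * ρ := by linarith
  have h1 : |τ| / ρ ≤ (c + 1) * ρ := by
    have := nrm_nonneg G (G.mul x (D.z τ))
    linarith
  have h2 : |τ| ≤ (c + 1) * ρ ^ 2 := by
    rw [div_le_iff₀ hρ0] at h1
    linarith
  have h3 : √ |τ| ≤ √ (c + 1) * ρ := by
    calc √ |τ| ≤ √ ((c + 1) * ρ ^ 2) := Real.sqrt_le_sqrt h2
      _ = √ (c + 1) * ρ := by rw [Real.sqrt_mul (by positivity), Real.sqrt_sq hρ0.le]
  have h4 : G.nrm x ≤ G.nrm (G.mul x (D.z τ)) + G.nrm (D.z τ) := by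
    have h5 : x = G.mul (G.mul x (D.z τ)) (G.inv (D.z τ)) := by
      rw [G.mulA, G.mulInv, G.mulZero]
    calc G.nrm x = G.nrm (G.mul (G.mul x (D.z τ)) (G.inv (D.z τ))) := by rw [← h5]
      _ ≤ _ := nrm_mul_le G _ _
      _ = _ := by rw [nrm_inv]
  have h6 := D.bound τ
  have h7 : G.nrm (G.mul x (D.z τ)) ≤ (c + 1) * ρ := by
    have : 0 ≤ |τ| / ρ := by positivity
    linarith
  have h8 : D.C * (1 + √ |τ|) ≤ D.C * (1 * ρ + √ (c + 1) * ρ) := by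
    have := D.hC
    gcongr
    linarith
  have h9 : ((c + 1) + D.C * (1 + √ (c + 1)) + 1) * ρ =
      (c + 1) * ρ + D.C * (1 * ρ + √ (c + 1) * ρ) + ρ := by ring
  rw [h9]
  linarith

theorem continuous_Nr (hρ : 0 < ρ) : Continuous (D.Nr ρ) := by
  rw [continuous_iff_continuousAt]
  intro x
  have h1 : Filter.Tendsto (fun y => G.nrm (G.ldiv x y)) (𝓝 x) (𝓝 0) := by
    have h2 : Continuous fun y => G.nrm (G.ldiv x y) :=
      (continuous_nrm G).comp (G.contDiff_mulLeft (G.inv x) 0).continuous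
    have := h2.tendsto x
    rwa [G.ldiv_self, nrm_zero] at this
  rw [ContinuousAt, tendsto_iff_dist_tendsto_zero]
  refine squeeze_zero (fun _ => dist_nonneg) (fun y => ?_) h1
  rw [Real.dist_eq, abs_le]
  have h3 : D.Nr ρ y ≤ D.Nr ρ x + D.Nr ρ (G.ldiv x y) := by
    have := D.Nr_mul_le hρ x (G.ldiv x y)
    rwa [NilLaw.ldiv, G.mulInvCancelLeft] at this
  have h4 : D.Nr ρ x ≤ D.Nr ρ y + D.Nr ρ (G.ldiv x y) := by
    have := D.Nr_mul_le hρ y (G.inv (G.ldiv x y))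
    have h5 : G.mul y (G.inv (G.ldiv x y)) = x := by
      rw [NilLaw.ldiv, G.invMulRev, G.invInv, G.mulInvCancelLeft]
    rwa [h5, D.Nr_inv hρ] at this
  have h6 := D.Nr_le_nrm hρ (G.ldiv x y)
  constructor <;> linarith

end Distorted

end Pool.Agent.TH630
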