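import Pool.Agent.TH630.Fill.Gauge

open MeasureTheory MvPolynomial
open scoped ENNReal NNReal Topology

namespace Pool.Agent.TH630

variable {n k : ℕ}

/-! ### Functions of polynomial growth on the half line -/

theorem exists_doubling (f : ℝ → ℝ) (hpos : ∀ r, 0 < r → 0 < f r) (C : ℝ) (d : ℕ)
    (hpoly : ∀ r, 0 ≤ r → f r ≤ C * (1 + r) ^ d) (κ : ℝ) (hκ : 1 ≤ κ) :
    ∃ N : ℝ, 0 < N ∧ ∀ r0 : ℝ, ∃ r, r0 ≤ r ∧ f (κ * r) ≤ N * f r := by
  refine ⟨2 * κ ^ d, by positivity, fun r0 => ?_⟩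
  by_contra hcon
  push Not at hcon
  set r1 := max r0 1 with hr1
  have hr1' : 1 ≤ r1 := le_max_right _ _
  have hind : ∀ j : ℕ, (2 * κ ^ d) ^ j * f r1 ≤ f (κ ^ j * r1) := by
    intro j
    induction j with
    | zero => simp
    | succ j ih =>
      have h1 : r1 ≤ κ ^ j * r1 := by
        have : 1 ≤ κ ^ j := one_le_pow₀ hκ
        nlinarith
      have h2 := hcon (κ ^ j * r1) ((le_max_left _ _).trans h1)
      rw [← mul_assoc, ← pow_succ'] at h2
      refine le_trans ?_ h2.le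
      rw [pow_succ' (2 * κ ^ d) j, mul_assoc]
      gcongr
  have hC : 0 ≤ C := by
    have h1 := hpoly 1 zero_le_one
    have h2 := hpos 1 one_pos
    by_contra hc
    push Not at hc
    have : C * (1 + 1) ^ d < 0 := mul_neg_of_neg_of_pos hc (by positivity)
    linarith
  have hbd : ∀ j : ℕ, 2 ^ j * f r1 ≤ C * (2 * r1) ^ d := by
    intro j
    have hκj : 1 ≤ κ ^ j := one_le_pow₀ hκ
    have h1 := (hind j).trans (hpoly (κ ^ j * r1) (by positivity))
    have h2 : C * (1 + κ ^ j * r1) ^ d ≤ C * (2 * (κ ^ j * r1)) ^ d := by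
      have : 1 ≤ κ ^ j * r1 := by nlinarith
      gcongr
      linarith
    have h3 := h1.trans h2
    have h4 : (2 * κ ^ d) ^ j * f r1 = (κ ^ d) ^ j * (2 ^ j * f r1) := by ring
    have h5 : C * (2 * (κ ^ j * r1)) ^ d = (κ ^ d) ^ j * (C * (2 * r1) ^ d) := by
      rw [mul_pow, mul_pow, mul_pow, ← pow_mul, ← pow_mul, mul_comm j d]
      ring
    rw [h4, h5] at h3
    exact le_of_mul_le_mul_left h3 (by positivity)
  have hf := hpos r1 (by linarith)
  obtain ⟨j, hj⟩ := pow_unbounded_of_one_lt (C * (2 * r1) ^ d / f r1) one_lt_two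
  rw [div_lt_iff₀ hf] at hj
  linarith [hbd j]

theorem exists_slow (f : ℝ → ℝ) (hpos : ∀ r, 0 < r → 0 < f r) (C : ℝ) (d : ℕ)
    (hpoly : ∀ r, 0 ≤ r → f r ≤ C * (1 + r) ^ d) (ε : ℝ) (hε : 0 < ε) (r0 : ℝ) :
    ∃ r, r0 ≤ r ∧ f (r + 2) ≤ (1 + ε) * f r := by
  by_contra hcon
  push Not at hcon
  set r1 := max r0 1 with hr1
  have hr1' : 1 ≤ r1 := le_max_right _ _
  have hind : ∀ j : ℕ, (1 + ε) ^ j * f r1 ≤ f (r1 + 2 * j) := by
    intro j
    induction j with
    | zero => simp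
    | succ j ih =>
      have h1 : r1 ≤ r1 + 2 * j := by have : (0 : ℝ) ≤ j := Nat.cast_nonneg j; linarith
      have h2 := hcon (r1 + 2 * j) ((le_max_left _ _).trans h1)
      have h3 : r1 + 2 * ((j + 1 : ℕ) : ℝ) = r1 + 2 * j + 2 := by push_cast; ring
      rw [h3]
      refine le_trans ?_ h2.le
      rw [pow_succ', mul_assoc]
      gcongr
  have hC : 0 ≤ C := by
    have h1 := hpoly 1 zero_le_one
    have h2 := hpos 1 one_pos
    by_contra hc
    push Not at hc
    have : C * (1 + 1) ^ d < 0 := mul_neg_of_neg_of_pos hc (by positivity)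
    linarith
  have hf := hpos r1 (by linarith)
  have hlim := tendsto_pow_const_div_const_pow_of_one_lt d (show (1 : ℝ) < 1 + ε by linarith)
  set M : ℝ := C * (3 + r1) ^ d with hM
  have hM0 : 0 ≤ M := by positivity
  have hlim2 : Filter.Tendsto (fun j : ℕ => M * ((j : ℝ) ^ d / (1 + ε) ^ j)) Filter.atTop (𝓝 0) := by
    simpa using hlim.const_mul M
  have hev := (hlim2.eventually (gt_mem_nhds hf)).and (Filter.eventually_ge_atTop 1)
  obtain ⟨j, hj, hj1⟩ := hev.exists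
  have hj1' : (1 : ℝ) ≤ j := by exact_mod_cast hj1
  have h1 := (hind j).trans (hpoly (r1 + 2 * j) (by positivity))
  have h2 : C * (1 + (r1 + 2 * j)) ^ d ≤ M * (j : ℝ) ^ d := by
    rw [hM, mul_assoc, ← mul_pow]
    gcongr
    nlinarith
  have h3 : (0 : ℝ) < (1 + ε) ^ j := by positivity
  have h4 : M * (j : ℝ) ^ d < f r1 * (1 + ε) ^ j := by
    rw [mul_div_assoc'] at hj
    rwa [div_lt_iff₀ h3] at hj
  have h5 := h1.trans h2
  nlinarith

/-! ### Volume growth -/

namespace NilLaw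

variable (G : NilLaw n)

/-- The volume of the ball of radius `r` of the word norm. -/
noncomputable def vg (r : ℝ) : ℝ := (volume {x : Fin n → ℝ | G.nrm x < r}).toReal

theorem isOpen_nball (r : ℝ) : IsOpen {x : Fin n → ℝ | G.nrm x < r} :=
  isOpen_lt (continuous_nrm G) continuous_const

theorem nball_subset : ∃ C : ℝ, 0 < C ∧ ∃ d : ℕ, ∀ r : ℝ, 0 ≤ r →
    {x : Fin n → ℝ | G.nrm x < r} ⊆ Metric.closedBall 0 (C * (1 + r) ^ d) := by
  obtain ⟨C, hC, d, h⟩ := nrm_growth G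
  refine ⟨C, hC, d, fun r hr x hx => ?_⟩
  rw [mem_closedBall_zero_iff]
  refine (h x).trans ?_
  have := nrm_nonneg G x
  have hx' : G.nrm x < r := hx
  gcongr

theorem volume_nball_lt_top (r : ℝ) : volume {x : Fin n → ℝ | G.nrm x < r} < ⊤ := by
  rcases le_or_gt 0 r with hr | hr
  · obtain ⟨C, _, d, h⟩ := G.nball_subset
    exact (measure_mono (h r hr)).trans_lt measure_closedBall_lt_top
  · have : {x : Fin n → ℝ | G.nrm x < r} = ∅ := by
      ext x
      have := nrm_nonneg G x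
      simp only [Set.mem_ofPred_eq, Set.mem_empty_iff_false, iff_false, not_lt]
      linarith
    rw [this]
    simp

theorem vg_pos (r : ℝ) (hr : 0 < r) : 0 < G.vg r := by
  refine ENNReal.toReal_pos ?_ (G.volume_nball_lt_top r).ne
  refine ((G.isOpen_nball r).measure_pos volume ⟨0, ?_⟩).ne'
  simpa [nrm_zero] using hr

theorem vg_poly : ∃ (C : ℝ) (d : ℕ), ∀ r : ℝ, 0 ≤ r → G.vg r ≤ C * (1 + r) ^ d := by
  obtain ⟨C, hC, d, h⟩ := G.nball_subset
  refine ⟨(2 * C) ^ n, d * n, fun r hr => ?_⟩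
  have h1 : G.vg r ≤ (volume (Metric.closedBall (0 : Fin n → ℝ) (C * (1 + r) ^ d))).toReal :=
    ENNReal.toReal_mono measure_closedBall_lt_top.ne (measure_mono (h r hr))
  rw [Real.volume_pi_closedBall _ (by positivity), ENNReal.toReal_ofReal (by positivity),
    Fintype.card_fin] at h1
  refine h1.trans (le_of_eq ?_)
  rw [← _root_.mul_assoc, mul_pow, pow_mul]

end NilLaw

end Pool.Agent.TH630
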