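import Pool.Agent.TH630.Fill.Basic

open MeasureTheory MvPolynomial
open scoped ENNReal NNReal

namespace Pool.Agent.TH630

variable {n k : ℕ}

namespace NilLaw

variable (G : NilLaw n)

/-- The cost of a step of a word. -/
noncomputable def cost (s : Fin n → ℝ) : ℝ := ‖s‖ + ‖G.inv s‖

/-- The possible costs of words in small elements representing `x`. -/
def costs (x : Fin n → ℝ) : Set ℝ :=
  {c | ∃ l : List (Fin n → ℝ), (∀ s ∈ l, ‖s‖ ≤ 1 ∧ ‖G.inv s‖ ≤ 1) ∧ l.foldr G.mul 0 = x ∧
    (l.map G.cost).sum = c}

/-- The word norm of the group: the infimum of the costs of the words representing `x`. -/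
noncomputable def nrm (x : Fin n → ℝ) : ℝ := sInf (G.costs x)

end NilLaw

end Pool.Agent.TH630
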