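import Mathlib

/-! # Applying functionals to the slots of a polynomial in several vector variables -/

open MvPolynomial

namespace Pool.Agent.TH630

variable {n N : ℕ}

/-- Linear functionals on the polynomials in `n` variables. -/
abbrev Fnl (n : ℕ) := MvPolynomial (Fin n) ℝ →ₗ[ℝ] ℝ

/-- Evaluation at a point. -/
noncomputable def ev (x : Fin n → ℝ) : Fnl n := (aeval x : MvPolynomial (Fin n) ℝ →ₐ[ℝ] ℝ).toLinearMap

theorem ev_apply (x : Fin n → ℝ) (p : MvPolynomial (Fin n) ℝ) : ev x p = eval x p := by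
  rw [ev, AlgHom.toLinearMap_apply, ← MvPolynomial.coe_aeval_eq_eval]
  rfl

/-- The monomial of slot `j` of the exponent `m`. -/
noncomputable def mono (m : Fin N × Fin n →₀ ℕ) (j : Fin N) : MvPolynomial (Fin n) ℝ :=
  ∏ a : Fin n, X a ^ m (j, a)

/-- The functionals `ℓ j` applied to the slots of a polynomial, linear in the polynomial. -/
noncomputable def tensL (ℓ : Fin N → Fnl n) : MvPolynomial (Fin N × Fin n) ℝ →ₗ[ℝ] ℝ :=
  (basisMonomials (Fin N × Fin n) ℝ).constr ℝ (fun m => ∏ j, ℓ j (mono m j))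

theorem tensL_monomial (ℓ : Fin N → Fnl n) (m : Fin N × Fin n →₀ ℕ) (c : ℝ) :
    tensL ℓ (monomial m c) = c * ∏ j, ℓ j (mono m j) := by
  have h : monomial m c = c • (basisMonomials (Fin N × Fin n) ℝ m) := by
    rw [coe_basisMonomials, smul_monomial, smul_eq_mul, mul_one]
  rw [h, map_smul, tensL, Module.Basis.constr_basis, smul_eq_mul]

theorem tensL_eq_sum (ℓ : Fin N → Fnl n) (Q : MvPolynomial (Fin N × Fin n) ℝ) :
    tensL ℓ Q = ∑ m ∈ Q.support, Q.coeff m * ∏ j, ℓ j (mono m j) := by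
  conv_lhs => rw [Q.as_sum, map_sum]
  exact Finset.sum_congr rfl fun m _ => tensL_monomial ℓ m _

/-- The functionals applied to the slots, as a multilinear map of the functionals. -/
noncomputable def tens (Q : MvPolynomial (Fin N × Fin n) ℝ) :
    MultilinearMap ℝ (fun _ : Fin N => Fnl n) ℝ :=
  ∑ m ∈ Q.support, Q.coeff m •
    (MultilinearMap.mkPiAlgebra ℝ (Fin N) ℝ).compLinearMap (fun j => LinearMap.applyₗ (mono m j))

theorem tens_apply (Q : MvPolynomial (Fin N × Fin n) ℝ) (ℓ : Fin N → Fnl n) :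
    tens Q ℓ = ∑ m ∈ Q.support, Q.coeff m * ∏ j, ℓ j (mono m j) := by
  simp [tens]

theorem tens_eq_tensL (Q : MvPolynomial (Fin N × Fin n) ℝ) (ℓ : Fin N → Fnl n) :
    tens Q ℓ = tensL ℓ Q := by rw [tens_apply, tensL_eq_sum]

theorem eval_mono (x : Fin n → ℝ) (m : Fin N × Fin n →₀ ℕ) (j : Fin N) :
    eval x (mono m j) = ∏ a, x a ^ m (j, a) := by
  simp [mono]

theorem monomial_eq_prod (m : Fin N × Fin n →₀ ℕ) :
    (monomial m (1 : ℝ)) = ∏ j : Fin N, rename (fun a => (j, a)) (mono m j) := by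
  rw [monomial_eq, C_1, one_mul, Finsupp.prod_fintype _ _ (by simp), Fintype.prod_prod_type]
  refine Finset.prod_congr rfl fun j _ => ?_
  simp [mono]

theorem tens_ev (Q : MvPolynomial (Fin N × Fin n) ℝ) (g : Fin N → Fin n → ℝ) :
    tens Q (fun j => ev (g j)) = eval (fun p => g p.1 p.2) Q := by
  rw [tens_apply, eval_eq']
  refine Finset.sum_congr rfl fun m _ => ?_
  rw [Fintype.prod_prod_type]
  simp only [ev_apply, eval_mono]

/-- Renaming along the inclusion of the slots other than `i`. -/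
theorem tensL_rename (i : Fin (N + 1)) (ℓ : Fin (N + 1) → Fnl n)
    (Q : MvPolynomial (Fin N × Fin n) ℝ) :
    tensL ℓ (rename (fun p : Fin N × Fin n => (i.succAbove p.1, p.2)) Q) =
      ℓ i 1 * tensL (fun j => ℓ (i.succAbove j)) Q := by
  have hinj : Function.Injective (fun p : Fin N × Fin n => (i.succAbove p.1, p.2)) := by
    rintro ⟨a, b⟩ ⟨c, d⟩ h
    simp only [Prod.mk.injEq] at h
    exact Prod.ext (Fin.succAbove_right_injective h.1) h.2
  induction Q using MvPolynomial.induction_on' with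
  | monomial m c =>
    rw [rename_monomial, tensL_monomial, tensL_monomial, Fin.prod_univ_succAbove _ i]
    have h1 : mono (Finsupp.mapDomain (fun p : Fin N × Fin n => (i.succAbove p.1, p.2)) m) i =
        (1 : MvPolynomial (Fin n) ℝ) := by
      rw [mono]
      apply Finset.prod_eq_one
      intro a _
      rw [Finsupp.mapDomain_of_notMem_range]
      · simp
      · rintro ⟨⟨b, c⟩, h⟩
        simp only [Prod.mk.injEq] at h
        exact Fin.succAbove_ne i b h.1
    have h2 : ∀ j : Fin N,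
        mono (Finsupp.mapDomain (fun p : Fin N × Fin n => (i.succAbove p.1, p.2)) m)
          (i.succAbove j) = (mono m j : MvPolynomial (Fin n) ℝ) := by
      intro j
      rw [mono, mono]
      refine Finset.prod_congr rfl fun a _ => ?_
      have := Finsupp.mapDomain_apply hinj m (j, a)
      simp only at this
      rw [this]
    rw [h1]
    simp only [h2]
    ring
  | add p q hp hq => rw [map_add, map_add, map_add, hp, hq]; ring

/-- Functionals on a product of polynomials in separate slots. -/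
theorem tensL_prod_rename (ℓ : Fin N → Fnl n) (q : Fin N → MvPolynomial (Fin n) ℝ) :
    tensL ℓ (∏ j, rename (fun a => (j, a)) (q j)) = ∏ j, ℓ j (q j) := by
  set A : MultilinearMap ℝ (fun _ : Fin N => MvPolynomial (Fin n) ℝ) ℝ :=
    (tensL ℓ).compMultilinearMap
      ((MultilinearMap.mkPiAlgebra ℝ (Fin N) (MvPolynomial (Fin N × Fin n) ℝ)).compLinearMap
        (fun j => (rename (fun a => (j, a)) :
          MvPolynomial (Fin n) ℝ →ₐ[ℝ] MvPolynomial (Fin N × Fin n) ℝ).toLinearMap)) with hA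
  set A' : MultilinearMap ℝ (fun _ : Fin N => MvPolynomial (Fin n) ℝ) ℝ :=
    (MultilinearMap.mkPiAlgebra ℝ (Fin N) ℝ).compLinearMap ℓ with hA'
  have hAA : A = A' := by
    refine Module.Basis.ext_multilinear (fun _ => basisMonomials (Fin n) ℝ) fun v => ?_
    have h1 : A (fun i => basisMonomials (Fin n) ℝ (v i)) =
        tensL ℓ (∏ j, rename (fun a => (j, a)) (monomial (v j) (1 : ℝ))) := by
      simp [hA]
    have h2 : A' (fun i => basisMonomials (Fin n) ℝ (v i)) =
        ∏ j, ℓ j (monomial (v j) (1 : ℝ)) := by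
      simp [hA']
    rw [h1, h2]
    set m : Fin N × Fin n →₀ ℕ := Finsupp.equivFunOnFinite.symm (fun p => v p.1 p.2) with hm
    have h3 : ∀ j, mono m j = monomial (v j) (1 : ℝ) := by
      intro j
      rw [monomial_eq, C_1, one_mul, Finsupp.prod_fintype _ _ (by simp), mono]
      simp [hm]
    have h4 := monomial_eq_prod m
    simp only [h3] at h4
    rw [← h4, tensL_monomial, one_mul]
    simp only [h3]
  have := congrArg (fun T => T q) hAA
  simpa [hA, hA'] using this

/-- The action of a substitution on all slots. -/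
theorem tensL_bind (s : Fin n → MvPolynomial (Fin n) ℝ) (ℓ : Fin N → Fnl n)
    (Q : MvPolynomial (Fin N × Fin n) ℝ) :
    tensL (fun j => (ℓ j).comp (bind₁ s : MvPolynomial (Fin n) ℝ →ₐ[ℝ] _).toLinearMap) Q =
      tensL ℓ (bind₁ (fun p : Fin N × Fin n => rename (fun a => (p.1, a)) (s p.2)) Q) := by
  induction Q using MvPolynomial.induction_on' with
  | monomial m c =>
    have h0 : monomial m c = c • monomial m (1 : ℝ) := by
      rw [smul_monomial, smul_eq_mul, mul_one]
    rw [tensL_monomial, h0, map_smul, map_smul, monomial_eq_prod, map_prod]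
    have h1 : ∀ j : Fin N,
        bind₁ (fun p : Fin N × Fin n => rename (fun a => (p.1, a)) (s p.2))
          (rename (fun a => (j, a)) (mono m j)) = rename (fun a => (j, a)) (bind₁ s (mono m j)) := by
      intro j
      rw [mono]
      simp only [map_prod, map_pow, rename_X, bind₁_X_right]
    simp only [h1]
    rw [tensL_prod_rename, smul_eq_mul]
    rfl
  | add p q hp hq => rw [map_add, map_add, map_add, hp, hq]

/-! ### Consequences of identities -/

/-- The cocycle identity. -/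
def IsCocyclePoly (Q : MvPolynomial (Fin (N + 1) × Fin n) ℝ) : Prop :=
  ∀ g : Fin (N + 2) → Fin n → ℝ,
    ∑ i : Fin (N + 2), (-1 : ℝ) ^ (i : ℕ) * eval (fun p => g (i.succAbove p.1) p.2) Q = 0

theorem cocycle_tens {Q : MvPolynomial (Fin (N + 1) × Fin n) ℝ} (hQ : IsCocyclePoly Q)
    (ℓ : Fin (N + 2) → Fnl n) :
    ∑ i : Fin (N + 2), (-1 : ℝ) ^ (i : ℕ) * (ℓ i 1 * tens Q (fun j => ℓ (i.succAbove j))) = 0 := by
  have h1 : ∑ i : Fin (N + 2), C ((-1 : ℝ) ^ (i : ℕ)) *
      rename (fun p : Fin (N + 1) × Fin n => (i.succAbove p.1, p.2)) Q = 0 := by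
    apply MvPolynomial.funext
    intro g
    rw [map_sum, map_zero]
    have := hQ (fun i a => g (i, a))
    rw [← this]
    refine Finset.sum_congr rfl fun i _ => ?_
    rw [map_mul, eval_C, eval_rename]
    rfl
  have h2 := congrArg (tensL ℓ) h1
  rw [map_sum, map_zero] at h2
  rw [← h2]
  refine Finset.sum_congr rfl fun i _ => ?_
  rw [← smul_eq_C_mul, map_smul, tensL_rename, tens_eq_tensL, smul_eq_mul]

theorem cocycle_exchange {Q : MvPolynomial (Fin (N + 1) × Fin n) ℝ} (hQ : IsCocyclePoly Q)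
    (a b : Fnl n) (ha : a 1 = 1) (hb : b 1 = 1) (ℓ : Fin N → Fnl n) (hℓ : ∀ j, ℓ j 1 = 0) :
    tens Q (Fin.cons a ℓ) = tens Q (Fin.cons b ℓ) := by
  have h := cocycle_tens hQ (Fin.cons a (Fin.cons b ℓ : Fin (N + 1) → Fnl n))
  rw [Fin.sum_univ_succ, Fin.sum_univ_succ] at h
  have h3 : ∀ i : Fin N, (-1 : ℝ) ^ ((i.succ.succ : Fin (N + 2)) : ℕ) *
      ((Fin.cons a (Fin.cons b ℓ : Fin (N + 1) → Fnl n) : Fin (N + 2) → Fnl n) i.succ.succ 1 *
        tens Q (fun j => (Fin.cons a (Fin.cons b ℓ : Fin (N + 1) → Fnl n) : Fin (N + 2) → Fnl n)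
          (i.succ.succ.succAbove j))) = 0 := by
    intro i
    rw [Fin.cons_succ, Fin.cons_succ, hℓ i]
    ring
  rw [Finset.sum_eq_zero (fun i _ => h3 i)] at h
  have h4 : (fun j => (Fin.cons a (Fin.cons b ℓ : Fin (N + 1) → Fnl n) : Fin (N + 2) → Fnl n)
      ((0 : Fin (N + 2)).succAbove j)) = (Fin.cons b ℓ : Fin (N + 1) → Fnl n) := by
    funext j
    rw [Fin.succAbove_zero, Fin.cons_succ]
  have h5 : (fun j => (Fin.cons a (Fin.cons b ℓ : Fin (N + 1) → Fnl n) : Fin (N + 2) → Fnl n)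
      ((Fin.succ 0 : Fin (N + 2)).succAbove j)) = (Fin.cons a ℓ : Fin (N + 1) → Fnl n) := by
    funext j
    refine Fin.cases ?_ (fun j => ?_) j
    · simp
    · rw [Fin.succ_succAbove_succ, Fin.succAbove_zero, Fin.cons_succ, Fin.cons_succ, Fin.cons_succ]
  rw [h4, h5, Fin.cons_zero, ha, Fin.cons_succ, Fin.cons_zero, hb] at h
  simp only [Fin.val_zero, pow_zero, Fin.val_succ, zero_add, pow_one] at h
  linarith

/-! ### The alternating form -/

/-- The functionals `ℓ` applied, after antisymmetrization, to the last `n` slots. -/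
noncomputable def kap (Q : MvPolynomial (Fin (n + 1) × Fin n) ℝ) (ℓ0 : Fnl n)
    (ℓ : Fin n → Fnl n) : ℝ :=
  ∑ m ∈ Q.support, Q.coeff m * (ℓ0 (mono m 0) *
    (Matrix.of fun i j => ℓ j (mono m (Fin.succ i))).det)

theorem kap_eq_sum_perm (Q : MvPolynomial (Fin (n + 1) × Fin n) ℝ) (ℓ0 : Fnl n)
    (ℓ : Fin n → Fnl n) :
    kap Q ℓ0 ℓ = ∑ π : Equiv.Perm (Fin n), ((Equiv.Perm.sign π : ℤ) : ℝ) *
      tens Q (Fin.cons ℓ0 (fun i => ℓ (π i))) := by
  simp only [kap, tens_apply, Finset.mul_sum]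
  rw [Finset.sum_comm]
  refine Finset.sum_congr rfl fun m _ => ?_
  rw [← Matrix.det_transpose, Matrix.det_apply', Finset.mul_sum, Finset.mul_sum]
  refine Finset.sum_congr rfl fun π _ => ?_
  rw [Fin.prod_univ_succ, Fin.cons_zero]
  simp only [Fin.cons_succ, Matrix.transpose_apply, Matrix.of_apply]
  ring

theorem kap_exchange {Q : MvPolynomial (Fin (n + 1) × Fin n) ℝ} (hQ : IsCocyclePoly Q)
    (a b : Fnl n) (ha : a 1 = 1) (hb : b 1 = 1) (ℓ : Fin n → Fnl n) (hℓ : ∀ j, ℓ j 1 = 0) :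
    kap Q a ℓ = kap Q b ℓ := by
  rw [kap_eq_sum_perm, kap_eq_sum_perm]
  refine Finset.sum_congr rfl fun π _ => ?_
  rw [cocycle_exchange hQ a b ha hb _ (fun j => hℓ (π j))]

theorem kap_frame (Q : MvPolynomial (Fin (n + 1) × Fin n) ℝ) (ℓ0 : Fnl n) (ℓ : Fin n → Fnl n)
    (W : Matrix (Fin n) (Fin n) ℝ) :
    kap Q ℓ0 (fun j => ∑ i, W i j • ℓ i) = W.det * kap Q ℓ0 ℓ := by
  rw [kap, kap, Finset.mul_sum]
  refine Finset.sum_congr rfl fun m _ => ?_
  have h : (Matrix.of fun i j => (∑ k, W k j • ℓ k) (mono m (Fin.succ i))) =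
      (Matrix.of fun i j => ℓ j (mono m (Fin.succ i))) * W := by
    ext i j
    simp [Matrix.mul_apply, LinearMap.sum_apply, mul_comm]
  rw [h, Matrix.det_mul]
  ring

/-- Invariance under a substitution. -/
theorem tens_invariant {Q : MvPolynomial (Fin N × Fin n) ℝ} (s : Fin n → MvPolynomial (Fin n) ℝ)
    (hQ : ∀ g : Fin N → Fin n → ℝ,
      eval (fun p => eval (g p.1) (s p.2)) Q = eval (fun p => g p.1 p.2) Q)
    (ℓ : Fin N → Fnl n) :
    tens Q (fun j => (ℓ j).comp (bind₁ s : MvPolynomial (Fin n) ℝ →ₐ[ℝ] _).toLinearMap) =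
      tens Q ℓ := by
  rw [tens_eq_tensL, tens_eq_tensL, tensL_bind]
  congr 1
  apply MvPolynomial.funext
  intro g
  have h1 := hQ (fun i a => g (i, a))
  have h2 : eval (fun p : Fin N × Fin n => (fun i a => g (i, a)) p.1 p.2) Q = eval g Q := rfl
  rw [h2] at h1
  rw [← h1]
  rw [← MvPolynomial.coe_aeval_eq_eval, ← MvPolynomial.coe_aeval_eq_eval, RingHom.coe_coe,
    RingHom.coe_coe, MvPolynomial.aeval_bind₁]
  congr 2
  funext p
  rw [MvPolynomial.aeval_rename]
  rfl

theorem kap_invariant {Q : MvPolynomial (Fin (n + 1) × Fin n) ℝ}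
    (s : Fin n → MvPolynomial (Fin n) ℝ)
    (hQ : ∀ g : Fin (n + 1) → Fin n → ℝ,
      eval (fun p => eval (g p.1) (s p.2)) Q = eval (fun p => g p.1 p.2) Q)
    (ℓ0 : Fnl n) (ℓ : Fin n → Fnl n) :
    kap Q (ℓ0.comp (bind₁ s : MvPolynomial (Fin n) ℝ →ₐ[ℝ] _).toLinearMap)
      (fun j => (ℓ j).comp (bind₁ s : MvPolynomial (Fin n) ℝ →ₐ[ℝ] _).toLinearMap) =
      kap Q ℓ0 ℓ := by
  rw [kap_eq_sum_perm, kap_eq_sum_perm]
  refine Finset.sum_congr rfl fun π _ => ?_
  rw [← tens_invariant s hQ (Fin.cons ℓ0 (fun i => ℓ (π i)))]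
  congr 2
  funext j
  refine Fin.cases ?_ (fun j => ?_) j <;> simp

theorem tens_combo {Λ : Type*} [Fintype Λ] (Q : MvPolynomial (Fin N × Fin n) ℝ)
    (pt : Λ → Fin n → ℝ) (W : Fin N → Λ → ℝ) :
    tens Q (fun i => ∑ l, W i l • ev (pt l)) =
      ∑ f : Fin N → Λ, (∏ i, W i (f i)) * eval (fun p => pt (f p.1) p.2) Q := by
  classical
  rw [MultilinearMap.map_sum]
  refine Finset.sum_congr rfl fun f _ => ?_
  rw [MultilinearMap.map_smul_univ, tens_ev, smul_eq_mul]

theorem kap_combo {Λ : Type*} [Fintype Λ] (Q : MvPolynomial (Fin (n + 1) × Fin n) ℝ)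
    (pt : Λ → Fin n → ℝ) (u : Λ → ℝ) (w : Fin n → Λ → ℝ) :
    kap Q (∑ l, u l • ev (pt l)) (fun j => ∑ l, w j l • ev (pt l)) =
      ∑ f : Fin (n + 1) → Λ, u (f 0) * (Matrix.of fun i j => w j (f (Fin.succ i))).det *
        eval (fun p => pt (f p.1) p.2) Q := by
  rw [kap_eq_sum_perm]
  have h1 : ∀ π : Equiv.Perm (Fin n),
      tens Q (Fin.cons (∑ l, u l • ev (pt l)) (fun i => ∑ l, w (π i) l • ev (pt l))) =
      ∑ f : Fin (n + 1) → Λ, (u (f 0) * ∏ i, w (π i) (f (Fin.succ i))) *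
        eval (fun p => pt (f p.1) p.2) Q := by
    intro π
    have h2 : (Fin.cons (∑ l, u l • ev (pt l)) (fun i => ∑ l, w (π i) l • ev (pt l)) :
        Fin (n + 1) → Fnl n) =
        fun i => ∑ l, (Fin.cons u (fun i => w (π i)) : Fin (n + 1) → Λ → ℝ) i l • ev (pt l) := by
      funext i
      refine Fin.cases ?_ (fun i => ?_) i <;> simp
    rw [h2, tens_combo]
    refine Finset.sum_congr rfl fun f _ => ?_
    rw [Fin.prod_univ_succ]
    simp
  simp only [h1, Finset.mul_sum]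
  rw [Finset.sum_comm]
  refine Finset.sum_congr rfl fun f _ => ?_
  rw [← Matrix.det_transpose, Matrix.det_apply', Finset.mul_sum, Finset.sum_mul]
  refine Finset.sum_congr rfl fun π _ => ?_
  simp only [Matrix.transpose_apply, Matrix.of_apply]
  ring

end Pool.Agent.TH630
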