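import Pool.Agent.TH630.Fill.Chain
import Pool.Agent.TH630.Fill.BarDefs
import Pool.Agent.TH630.Fill.NormDefs
import Pool.Agent.TH630.Fill.Tens
import Pool.Agent.TH620.J57
import Pool.Agent.TH649.J58
import Pool.Agent.TH620.J78
import Pool.Agent.TH620.J79
import Pool.Agent.TH620.J83
import Pool.Agent.TH620.J84
import Pool.Agent.TH620.J85

/-! # Lemmas proved in other modules, under their short names -/

open MeasureTheory MvPolynomial
open scoped ENNReal NNReal Topology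

namespace Pool.Agent.TH630

theorem integral_det_fderiv_sub {n : ℕ} (hn : 0 < n) {f g : (Fin n → ℝ) → (Fin n → ℝ)}
    (hf : LocallyLipschitz f) (hg : LocallyLipschitz g) {S : Set (Fin n → ℝ)} (hS : IsCompact S)
    (hfg : ∀ x, x ∉ S → f x = g x) :
    Integrable (fun x => (fderiv ℝ f x).det - (fderiv ℝ g x).det) ∧
      ∫ x, ((fderiv ℝ f x).det - (fderiv ℝ g x).det) = 0 :=
  Pool.Agent.TH620.J57.integral_det_fderiv_sub hn hf hg hS hfg

theorem sgnVolChain_eq_zero {m : ℕ}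
    (hL0 : ∀ f g : (Fin (m + 1) → ℝ) → (Fin (m + 1) → ℝ), LocallyLipschitz f →
      LocallyLipschitz g → ∀ S : Set (Fin (m + 1) → ℝ), IsCompact S → (∀ x, x ∉ S → f x = g x) →
      Integrable (fun x => (fderiv ℝ f x).det - (fderiv ℝ g x).det) ∧
        ∫ x, ((fderiv ℝ f x).det - (fderiv ℝ g x).det) = 0)
    (c : Chain (m + 1) (m + 1)) (hc : bdry c = 0) : sgnVolChain c = 0 :=
  Pool.Agent.TH649.sgnVolChain_eq_zero hL0 c hc

section Norm

variable {n : ℕ} (G : NilLaw n)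

theorem costs_nonempty (x : Fin n → ℝ) : (G.costs x).Nonempty :=
  Pool.Agent.TH620.J78.costs_nonempty G x

theorem nrm_nonneg (x : Fin n → ℝ) : 0 ≤ G.nrm x := Pool.Agent.TH620.J78.nrm_nonneg G x

theorem nrm_zero : G.nrm 0 = 0 := Pool.Agent.TH620.J78.nrm_zero G

theorem nrm_inv (x : Fin n → ℝ) : G.nrm (G.inv x) = G.nrm x := Pool.Agent.TH620.J78.nrm_inv G x

theorem nrm_mul_le (x y : Fin n → ℝ) : G.nrm (G.mul x y) ≤ G.nrm x + G.nrm y :=
  Pool.Agent.TH620.J78.nrm_mul_le G x y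

theorem nrm_le_small : ∃ δ : ℝ, 0 < δ ∧ ∃ C : ℝ, 0 < C ∧ ∀ y : Fin n → ℝ, ‖y‖ ≤ δ →
    G.nrm y ≤ C * ‖y‖ := Pool.Agent.TH620.J78.nrm_le_small G

theorem continuous_nrm : Continuous G.nrm := Pool.Agent.TH620.J78.continuous_nrm G

theorem nrm_growth : ∃ C : ℝ, 0 < C ∧ ∃ D : ℕ, ∀ x : Fin n → ℝ,
    ‖x‖ ≤ C * (1 + G.nrm x) ^ D := Pool.Agent.TH620.J78.nrm_growth G

theorem exists_path (hne : ∀ x, (G.costs x).Nonempty) (B : Matrix (Fin n) (Fin n) ℝ) :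
    ∃ C : ℝ, 0 < C ∧ ∀ x : Fin n → ℝ, ∃ c : Chain n 1,
      bdry c = Finsupp.single (ptSimplex x) 1 - Finsupp.single (ptSimplex 0) 1 ∧
      G.mass B c ≤ ENNReal.ofReal (C * (G.nrm x + 1)) :=
  Pool.Agent.TH620.J83.exists_path G hne B

theorem exists_distorted (hG : ∃ x y, G.mul x y ≠ G.mul y x) (N : (Fin n → ℝ) → ℝ)
    (h0 : ∀ x, 0 ≤ N x) (hmul : ∀ x y, N (G.mul x y) ≤ N x + N y)
    (hinv : ∀ x, N (G.inv x) = N x) (hb : ∀ r : ℝ, ∃ C : ℝ, ∀ x, ‖x‖ ≤ r → N x ≤ C) :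
    ∃ (z : ℝ → Fin n → ℝ) (Z : Fin n → ℝ), Z ≠ 0 ∧ HasDerivAt z Z 0 ∧
      (∀ s t, z (s + t) = G.mul (z s) (z t)) ∧ (∀ s x, G.mul (z s) x = G.mul x (z s)) ∧
      ∃ C : ℝ, 0 < C ∧ ∀ τ : ℝ, N (z τ) ≤ C * (1 + √ |τ|) :=
  Pool.Agent.TH620.J79.exists_distorted G hG N h0 hmul hinv hb

end Norm

section Bar

variable {n : ℕ} (G : NilLaw n)

theorem bar_mulLeft {ι : Type*} [Fintype ι] (t : ι → ℝ) (ht : ∑ j, t j = 1) (x : Fin n → ℝ)
    (g : ι → Fin n → ℝ) : G.bar t (fun j => G.mul x (g j)) = G.mul x (G.bar t g) :=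
  Pool.Agent.TH620.J84.bar_mulLeft G t ht x g

theorem barSimplex_face {k : ℕ} (g : Fin (k + 2) → Fin n → ℝ) (i : Fin (k + 2)) :
    (G.barSimplex g).face i = G.barSimplex (fun j => g (i.succAbove j)) :=
  Pool.Agent.TH620.J84.barSimplex_face G g i

theorem barSimplex_zero (g : Fin 1 → Fin n → ℝ) : G.barSimplex g = ptSimplex (g 0) :=
  Pool.Agent.TH620.J84.barSimplex_zero G g

theorem vol_barSimplex_le (B : Matrix (Fin n) (Fin n) ℝ) (k : ℕ) (r : ℝ) :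
    ∃ C : ℝ, 0 < C ∧ ∀ g : Fin (k + 1) → Fin n → ℝ, (∀ j, ‖g j‖ ≤ r) →
      G.vol B (G.barSimplex g) ≤ ENNReal.ofReal C :=
  Pool.Agent.TH620.J84.vol_barSimplex_le G B k r

theorem exists_barPoly : ∃ Q : MvPolynomial (Fin (n + 1) × Fin n) ℝ,
    ∀ g : Fin (n + 1) → Fin n → ℝ,
      sgnVol (G.barSimplex g) = MvPolynomial.eval (fun p => g p.1 p.2) Q :=
  Pool.Agent.TH620.J85.exists_barPoly G

theorem sgnVol_barSimplex_degenerate (g : Fin (n + 1) → Fin n → ℝ) (j : Fin n)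
    (h : g j.succ = g 0) : sgnVol (G.barSimplex g) = 0 :=
  Pool.Agent.TH620.J85.sgnVol_barSimplex_degenerate G g j h

theorem tendsto_sgnVol_barSimplex (v : Fin n → Fin n → ℝ) :
    Filter.Tendsto (fun s : ℝ => (s⁻¹) ^ n *
        sgnVol (G.barSimplex (Fin.cons 0 (fun j => s • v j) : Fin (n + 1) → Fin n → ℝ)))
      (𝓝[≠] 0) (𝓝 ((Matrix.of v).det * (volume (corner n)).toReal)) :=
  Pool.Agent.TH620.J85.tendsto_sgnVol_barSimplex G v

end Bar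

end Pool.Agent.TH630
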