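import Pool.Agent.TH630.Fill.Inputs

open MeasureTheory MvPolynomial
open scoped ENNReal NNReal Topology

namespace Pool.Agent.TH630

variable {n k : ℕ}

/-! ### Alternating sums over faces -/

theorem altSum_altSum {X M : Type*} [AddCommGroup M] {k : ℕ} (Ψ : (Fin k → X) → M)
    (g : Fin (k + 2) → X) : altSum (fun g' => altSum Ψ g') g = 0 := by
  simp only [altSum, Finset.smul_sum]
  rw [← Finset.sum_product' (s := Finset.univ) (t := Finset.univ)
    (f := fun (i : Fin (k + 2)) (j : Fin (k + 1)) => ((-1 : ℤ) ^ (i : ℕ)) • ((-1 : ℤ) ^ (j : ℕ)) •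
      Ψ (fun a => g (i.succAbove (j.succAbove a))))]
  apply Finset.sum_involution (fun (x : Fin (k + 2) × Fin (k + 1)) _ =>
    ((x.1.succAbove x.2, x.2.predAbove x.1) : Fin (k + 2) × Fin (k + 1)))
  · rintro ⟨i, j⟩ _
    simp only [Fin.succAbove_succAbove_succAbove_predAbove]
    rw [smul_smul, smul_smul, ← pow_add, ← pow_add, Fin.neg_one_pow_succAbove_add_predAbove,
      neg_smul, add_neg_cancel]
  · rintro ⟨i, j⟩ _ _ h
    have := congrArg Prod.fst h
    exact Fin.succAbove_ne i j this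
  · rintro ⟨i, j⟩ _
    exact Finset.mem_univ _
  · rintro ⟨i, j⟩ _
    ext1
    · exact Fin.succAbove_succAbove_predAbove i j
    · exact Fin.predAbove_predAbove_succAbove i j

theorem altSum_sub {X M : Type*} [AddCommGroup M] {k : ℕ} (Ψ Ψ' : (Fin k → X) → M)
    (g : Fin (k + 1) → X) :
    altSum (fun g' => Ψ g' - Ψ' g') g = altSum Ψ g - altSum Ψ' g := by
  simp only [altSum, smul_sub, Finset.sum_sub_distrib]

theorem altSum_congr {X M : Type*} [AddCommGroup M] {k : ℕ} {Ψ Ψ' : (Fin k → X) → M}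
    {g : Fin (k + 1) → X} (h : ∀ i : Fin (k + 1), Ψ (fun j => g (i.succAbove j)) =
      Ψ' (fun j => g (i.succAbove j))) : altSum Ψ g = altSum Ψ' g := by
  simp only [altSum, h]

theorem bdry_altSum {X : Type*} {k j : ℕ} (Ψ : (Fin k → X) → Chain n (j + 1))
    (g : Fin (k + 1) → X) : bdry (altSum Ψ g) = altSum (fun g' => bdry (Ψ g')) g := by
  simp only [altSum, bdry_sum, bdry_smul]

namespace NilLaw

variable (G : NilLaw n) (B : Matrix (Fin n) (Fin n) ℝ)

theorem mass_altSum_le {X : Type*} {k j : ℕ} (Ψ : (Fin k → X) → Chain n j)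
    (g : Fin (k + 1) → X) (A : ℝ)
    (h : ∀ i : Fin (k + 1), G.mass B (Ψ (fun j => g (i.succAbove j))) ≤ ENNReal.ofReal A) :
    G.mass B (altSum Ψ g) ≤ ENNReal.ofReal ((k + 1) * A) := by
  refine (G.mass_sum_le B _ _).trans ?_
  simp only [mass_sign_smul]
  refine (Finset.sum_le_sum fun i _ => h i).trans ?_
  rw [Finset.sum_const, Finset.card_univ, Fintype.card_fin, nsmul_eq_mul,
    ENNReal.ofReal_mul (by positivity)]
  apply le_of_eq
  congr 1
  rw [← Nat.cast_succ, ENNReal.ofReal_natCast]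

/-- All pairs of points of the tuple are at distance at most `K`. -/
def near (K : ℝ) (g : Fin k → Fin n → ℝ) : Prop :=
  ∀ i j, G.nrm (G.ldiv (g i) (g j)) ≤ K

theorem near_face {K : ℝ} {g : Fin (k + 1) → Fin n → ℝ} (h : G.near K g) (i : Fin (k + 1)) :
    G.near K (fun j => g (i.succAbove j)) := fun _ _ => h _ _

/-- The barycentric simplex, as a chain. -/
noncomputable def sC {k : ℕ} (g : Fin (k + 1) → Fin n → ℝ) : Chain n k :=
  Finsupp.single (G.barSimplex g) 1

theorem bdry_sC {k : ℕ} (g : Fin (k + 2) → Fin n → ℝ) : bdry (G.sC g) = altSum G.sC g := by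
  rw [sC, bdry_single, altSum]
  refine Finset.sum_congr rfl fun i _ => ?_
  rw [barSimplex_face, sC, Finsupp.smul_single, smul_eq_mul]

/-- Fillings at scale `ρ` when the filling function is at most Euclidean. -/
theorem exists_filling {j : ℕ} (hFV : ¬ G.SuperEuclidean B (j + 1)) (A : ℝ) (hA : 0 ≤ A) :
    ∃ A' : ℝ, 0 < A' ∧ ∀ ρ : ℝ, 1 ≤ ρ → ∀ a : Chain n (j + 1), bdry a = 0 →
      G.mass B a ≤ ENNReal.ofReal (A * ρ ^ (j + 1)) →
      ∃ b : Chain n (j + 2), bdry b = a ∧ G.mass B b ≤ ENNReal.ofReal (A' * ρ ^ (j + 2)) := by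
  rw [SuperEuclidean, not_not] at hFV
  obtain ⟨C, hC0, hC⟩ := hFV
  set p : ℝ := (((j + 1 : ℕ) : ℝ) + 1) / ((j + 1 : ℕ) : ℝ) with hp
  refine ⟨C * (C * A) ^ p + C * A + C + 1, by positivity, fun ρ hρ a ha hm => ?_⟩
  have hρ0 : 0 ≤ ρ := by linarith
  have h1 : (⨅ (b : Chain n (j + 1 + 1)) (_ : bdry b = a), G.mass B b) ≤
      G.FV B (j + 1) (A * ρ ^ (j + 1)) :=
    le_iSup_of_le a (le_iSup_of_le (show IsCycle a from ha) (le_iSup_of_le hm le_rfl))
  have h2 := h1.trans (hC (A * ρ ^ (j + 1)) (by positivity))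
  have h3 : (C * (A * ρ ^ (j + 1))) ^ p = (C * A) ^ p * ρ ^ (j + 2) := by
    rw [← _root_.mul_assoc, Real.mul_rpow (by positivity) (by positivity)]
    congr 1
    rw [← Real.rpow_natCast, ← Real.rpow_mul hρ0, hp, ← Real.rpow_natCast ρ (j + 2)]
    congr 1
    push_cast
    field_simp
    ring
  have h4 : C * (C * (A * ρ ^ (j + 1))) ^ p + C * (A * ρ ^ (j + 1)) + C <
      (C * (C * A) ^ p + C * A + C + 1) * ρ ^ (j + 2) := by
    rw [h3]
    have h5 : ρ ^ (j + 1) ≤ ρ ^ (j + 2) := pow_le_pow_right₀ hρ (by omega)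
    have h6 : 1 ≤ ρ ^ (j + 2) := one_le_pow₀ hρ
    have h7 : C * A * ρ ^ (j + 1) ≤ C * A * ρ ^ (j + 2) := by gcongr
    nlinarith
  have h5 : (⨅ (b : Chain n (j + 1 + 1)) (_ : bdry b = a), G.mass B b) <
      ENNReal.ofReal ((C * (C * A) ^ p + C * A + C + 1) * ρ ^ (j + 2)) := by
    refine lt_of_le_of_lt h2 ?_
    rw [ENNReal.ofReal_lt_ofReal_iff (by positivity)]
    exact h4
  simp only [iInf_lt_iff] at h5
  obtain ⟨b, hb, hb2⟩ := h5
  exact ⟨b, hb, hb2.le⟩

theorem vol_pt (x : Fin n → ℝ) : G.vol B (ptSimplex x : LipSimplex n 0) ≤ volume (corner 0) := by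
  rw [vol]
  simp

theorem exists_phi_mass_zero : ∃ A : ℝ, 0 < A ∧ ∀ x : Fin n → ℝ,
    G.mass B (Finsupp.single (ptSimplex x : LipSimplex n 0) 1) ≤ ENNReal.ofReal A := by
  refine ⟨(volume (corner 0)).toReal + 1, by positivity, fun x => ?_⟩
  rw [mass_single]
  simp only [Int.natAbs_one, Nat.cast_one, one_mul]
  refine (G.vol_pt B x).trans ?_
  rw [ENNReal.ofReal_add (by positivity) (by positivity),
    ENNReal.ofReal_toReal (volume_corner_lt_top 0).ne]
  exact le_self_add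

theorem trC_single (g : Fin n → ℝ) (σ : LipSimplex n k) (a : ℤ) :
    G.trC g (Finsupp.single σ a) = Finsupp.single (G.tr g σ) a := Finsupp.mapDomain_single

theorem trC_sub (g : Fin n → ℝ) (a b : Chain n k) : G.trC g (a - b) = G.trC g a - G.trC g b := by
  have h : G.trC g a = G.trC g (a - b) + G.trC g b := by rw [← trC_add, sub_add_cancel]
  rw [h, add_sub_cancel_right]

theorem tr_pt (g x : Fin n → ℝ) : G.tr g (ptSimplex x : LipSimplex n k) = ptSimplex (G.mul g x) :=
  rfl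

/-- Connecting two points at distance at most `K ρ`. -/
theorem exists_edge (K : ℝ) (hK : 0 ≤ K) : ∃ A' : ℝ, 0 < A' ∧ ∀ ρ : ℝ, 1 ≤ ρ →
    ∀ x y : Fin n → ℝ, G.nrm (G.ldiv x y) ≤ K * ρ →
      ∃ b : Chain n 1, bdry b = Finsupp.single (ptSimplex y) 1 - Finsupp.single (ptSimplex x) 1 ∧
        G.mass B b ≤ ENNReal.ofReal (A' * ρ) := by
  obtain ⟨C, hC0, hC⟩ := exists_path G (costs_nonempty G) B
  refine ⟨C * (K + 1), by positivity, fun ρ hρ x y hxy => ?_⟩
  obtain ⟨c, hc1, hc2⟩ := hC (G.ldiv x y)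
  refine ⟨G.trC x c, ?_, ?_⟩
  · rw [bdry_trC, hc1, trC_sub, trC_single, trC_single, tr_pt, tr_pt, mulZero, ldiv,
      mulInvCancelLeft]
  · rw [mass_trC]
    refine hc2.trans (ENNReal.ofReal_le_ofReal ?_)
    have : C * (G.nrm (G.ldiv x y) + 1) ≤ C * (K * ρ + 1 * ρ) := by gcongr; linarith
    linarith

theorem altSum_pair {X M : Type*} [AddCommGroup M] (Ψ : (Fin 1 → X) → M) (g : Fin 2 → X) :
    altSum Ψ g = Ψ (fun _ => g 1) - Ψ (fun _ => g 0) := by
  rw [altSum, Fin.sum_univ_two]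
  have h0 : (fun j => g ((0 : Fin 2).succAbove j)) = fun _ : Fin 1 => g 1 := by
    funext j
    rw [Subsingleton.elim j 0]
    rfl
  have h1 : (fun j => g ((1 : Fin 2).succAbove j)) = fun _ : Fin 1 => g 0 := by
    funext j
    rw [Subsingleton.elim j 0]
    rfl
  rw [h0, h1]
  simp [sub_eq_add_neg]

/-- Chains filling near tuples, with volume bounds of the right order. -/
theorem exists_Phi (hFV : ∀ j, j + 2 ≤ n → ¬ G.SuperEuclidean B (j + 1)) (K : ℝ) (hK : 0 ≤ K)
    (k : ℕ) (hk : k ≤ n) : ∃ A : ℝ, 0 < A ∧ ∀ ρ : ℝ, 1 ≤ ρ →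
      ∃ Φ : ∀ j, (Fin (j + 1) → Fin n → ℝ) → Chain n j,
        (∀ g, Φ 0 g = Finsupp.single (ptSimplex (g 0)) 1) ∧
        (∀ j < k, ∀ g, G.near (K * ρ) g → bdry (Φ (j + 1) g) = altSum (Φ j) g) ∧
        (∀ j ≤ k, ∀ g, G.near (K * ρ) g → G.mass B (Φ j g) ≤ ENNReal.ofReal (A * ρ ^ j)) := by
  classical
  induction k with
  | zero =>
    obtain ⟨A, hA, hA'⟩ := G.exists_phi_mass_zero B
    refine ⟨A, hA, fun ρ hρ => ⟨fun j g => Finsupp.single (ptSimplex (g 0)) 1, fun g => rfl,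
      fun j hj => absurd hj (by omega), fun j hj g _ => ?_⟩⟩
    obtain rfl : j = 0 := by omega
    simpa using hA' (g 0)
  | succ k ih =>
    obtain ⟨A, hA, hΦ⟩ := ih (by omega)
    have hstep : ∃ A' : ℝ, 0 < A' ∧ ∀ ρ : ℝ, 1 ≤ ρ →
        ∀ Φ : ∀ j, (Fin (j + 1) → Fin n → ℝ) → Chain n j,
        (∀ g, Φ 0 g = Finsupp.single (ptSimplex (g 0)) 1) →
        (∀ j < k, ∀ g, G.near (K * ρ) g → bdry (Φ (j + 1) g) = altSum (Φ j) g) →
        (∀ j ≤ k, ∀ g, G.near (K * ρ) g → G.mass B (Φ j g) ≤ ENNReal.ofReal (A * ρ ^ j)) →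
        ∀ g : Fin (k + 2) → Fin n → ℝ, G.near (K * ρ) g → ∃ b : Chain n (k + 1),
          bdry b = altSum (Φ k) g ∧ G.mass B b ≤ ENNReal.ofReal (A' * ρ ^ (k + 1)) := by
      rcases k with _ | k
      · obtain ⟨A', hA', h⟩ := G.exists_edge B K hK
        refine ⟨A', hA', fun ρ hρ Φ h0 _ _ g hg => ?_⟩
        obtain ⟨b, hb1, hb2⟩ := h ρ hρ (g 0) (g 1) (hg 0 1)
        refine ⟨b, ?_, by simpa using hb2⟩
        rw [hb1, altSum_pair, h0, h0]
      · obtain ⟨A', hA', h⟩ := G.exists_filling B (hFV k (by omega)) ((k + 1 + 1 + 1) * A)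
          (by positivity)
        refine ⟨A', hA', fun ρ hρ Φ h0 h1 h2 g hg => ?_⟩
        apply h ρ hρ
        · rw [bdry_altSum, ← altSum_altSum (Φ k) g]
          apply altSum_congr
          intro i
          exact h1 k (by omega) _ (G.near_face hg i)
        · have := G.mass_altSum_le B (Φ (k + 1)) g (A * ρ ^ (k + 1))
            (fun i => h2 (k + 1) le_rfl _ (G.near_face hg i))
          refine this.trans (le_of_eq ?_)
          push_cast
          congr 1
          ring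
    obtain ⟨A', hA', hstep⟩ := hstep
    refine ⟨max A A', lt_max_of_lt_left hA, fun ρ hρ => ?_⟩
    have hρ0 : 0 ≤ ρ := by linarith
    obtain ⟨Φ, h0, h1, h2⟩ := hΦ ρ hρ
    have hst := hstep ρ hρ Φ h0 h1 h2
    set new : (Fin (k + 1 + 1) → Fin n → ℝ) → Chain n (k + 1) := fun g =>
      if h : G.near (K * ρ) g then (hst g h).choose else 0 with hnew
    have hn1 : ∀ g, G.near (K * ρ) g → bdry (new g) = altSum (Φ k) g := by
      intro g hg
      simp only [hnew, dif_pos hg]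
      exact (hst g hg).choose_spec.1
    have hn2 : ∀ g, G.near (K * ρ) g → G.mass B (new g) ≤ ENNReal.ofReal (A' * ρ ^ (k + 1)) := by
      intro g hg
      simp only [hnew, dif_pos hg]
      exact (hst g hg).choose_spec.2
    refine ⟨Function.update Φ (k + 1) new, fun g => ?_, fun j hj g hg => ?_, fun j hj g hg => ?_⟩
    · rw [Function.update_of_ne (by omega)]
      exact h0 g
    · rcases Nat.lt_or_ge j k with hjk | hjk
      · rw [Function.update_of_ne (by omega), Function.update_of_ne (by omega)]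
        exact h1 j hjk g hg
      · obtain rfl : j = k := by omega
        rw [Function.update_self, Function.update_of_ne (by omega)]
        exact hn1 g hg
    · rcases Nat.lt_or_ge j (k + 1) with hjk | hjk
      · rw [Function.update_of_ne (by omega)]
        refine (h2 j (by omega) g hg).trans (ENNReal.ofReal_le_ofReal ?_)
        gcongr
        exact le_max_left _ _
      · obtain rfl : j = k + 1 := by omega
        rw [Function.update_self]
        refine (hn2 g hg).trans (ENNReal.ofReal_le_ofReal ?_)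
        gcongr
        exact le_max_right _ _

theorem sC_zero (g : Fin 1 → Fin n → ℝ) : G.sC g = Finsupp.single (ptSimplex (g 0)) 1 := by
  rw [sC, barSimplex_zero]

/-- The difference of `Φ`, the straight simplices and `H` is a cycle. -/
theorem cycle_H {L : ℝ} (Φ : ∀ j, (Fin (j + 1) → Fin n → ℝ) → Chain n j)
    (H : ∀ j, (Fin (j + 1) → Fin n → ℝ) → Chain n (j + 1)) (k : ℕ)
    (h0 : ∀ g, Φ 0 g = Finsupp.single (ptSimplex (g 0)) 1)
    (h1 : ∀ g, G.near L g → bdry (Φ (k + 1) g) = altSum (Φ k) g)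
    (hH0 : ∀ g, H 0 g = 0)
    (hH : ∀ j < k, ∀ g, G.near L g →
      bdry (H (j + 1) g) = Φ (j + 1) g - G.sC g - altSum (H j) g)
    (g : Fin (k + 2) → Fin n → ℝ) (hg : G.near L g) :
    bdry (Φ (k + 1) g - G.sC g - altSum (H k) g) = 0 := by
  rw [bdry_sub, bdry_sub, h1 g hg, bdry_sC, bdry_altSum, ← altSum_sub]
  rcases k with _ | k
  · rw [← altSum_sub]
    have : ∀ g' : Fin 1 → Fin n → ℝ, Φ 0 g' - G.sC g' - bdry (H 0 g') = 0 := by
      intro g'
      rw [h0, hH0, bdry_zero, sC_zero]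
      simp
    rw [altSum_congr (Ψ' := fun _ => 0) fun i => this _]
    simp [altSum]
  · rw [← altSum_sub, ← altSum_altSum (H k) g]
    apply altSum_congr
    intro i
    rw [hH k (by omega) _ (G.near_face hg i)]
    abel

theorem exists_H (hFV : ∀ j, j + 2 ≤ n → ¬ G.SuperEuclidean B (j + 1)) {L A : ℝ} (hA : 0 ≤ A)
    (Φ : ∀ j, (Fin (j + 1) → Fin n → ℝ) → Chain n j)
    (h0 : ∀ g, Φ 0 g = Finsupp.single (ptSimplex (g 0)) 1)
    (h1 : ∀ j < n, ∀ g, G.near L g → bdry (Φ (j + 1) g) = altSum (Φ j) g)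
    (h2 : ∀ j ≤ n, ∀ g, G.near L g → G.mass B (Φ j g) ≤ ENNReal.ofReal A)
    (h3 : ∀ j ≤ n, ∀ g : Fin (j + 1) → Fin n → ℝ, G.near L g →
      G.mass B (G.sC g) ≤ ENNReal.ofReal A)
    (k : ℕ) (hk : k + 1 ≤ n) : ∃ C : ℝ, 0 < C ∧
      ∃ H : ∀ j, (Fin (j + 1) → Fin n → ℝ) → Chain n (j + 1), (∀ g, H 0 g = 0) ∧
        (∀ j < k, ∀ g, G.near L g →
          bdry (H (j + 1) g) = Φ (j + 1) g - G.sC g - altSum (H j) g) ∧
        (∀ j ≤ k, ∀ g, G.near L g → G.mass B (H j g) ≤ ENNReal.ofReal C) := by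
  classical
  induction k with
  | zero =>
    refine ⟨1, one_pos, fun j g => 0, fun g => rfl, fun j hj => absurd hj (by omega),
      fun j hj g _ => ?_⟩
    rw [mass_zero]
    exact bot_le
  | succ k ih =>
    obtain ⟨C, hC, H, hH0, hH1, hH2⟩ := ih (by omega)
    obtain ⟨A', hA', hfill⟩ := G.exists_filling B (hFV k (by omega)) (A + A + (k + 1 + 1) * C)
      (by positivity)
    have hst : ∀ g : Fin (k + 1 + 1) → Fin n → ℝ, G.near L g → ∃ b : Chain n (k + 2),
        bdry b = Φ (k + 1) g - G.sC g - altSum (H k) g ∧ G.mass B b ≤ ENNReal.ofReal A' := by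
      intro g hg
      obtain ⟨b, hb1, hb2⟩ := hfill 1 le_rfl (Φ (k + 1) g - G.sC g - altSum (H k) g)
        (G.cycle_H Φ H k h0 (h1 k (by omega)) hH0 hH1 g hg) (by
          rw [one_pow, mul_one, ENNReal.ofReal_add (by positivity) (by positivity),
            ENNReal.ofReal_add hA hA]
          refine (G.mass_sub_le B _ _).trans (add_le_add ((G.mass_sub_le B _ _).trans
            (add_le_add (h2 _ (by omega) g hg) (h3 _ (by omega) g hg))) ?_)
          have := G.mass_altSum_le B (H k) g C (fun i => hH2 k le_rfl _ (G.near_face hg i))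
          refine this.trans (le_of_eq ?_)
          push_cast
          rfl)
      exact ⟨b, hb1, by simpa using hb2⟩
    set new : (Fin (k + 1 + 1) → Fin n → ℝ) → Chain n (k + 1 + 1) := fun g =>
      if h : G.near L g then (hst g h).choose else 0 with hnew
    have hn1 : ∀ g, G.near L g → bdry (new g) = Φ (k + 1) g - G.sC g - altSum (H k) g := by
      intro g hg
      simp only [hnew, dif_pos hg]
      exact (hst g hg).choose_spec.1
    have hn2 : ∀ g, G.near L g → G.mass B (new g) ≤ ENNReal.ofReal A' := by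
      intro g hg
      simp only [hnew, dif_pos hg]
      exact (hst g hg).choose_spec.2
    refine ⟨max C A', lt_max_of_lt_left hC, Function.update H (k + 1) new, fun g => ?_,
      fun j hj g hg => ?_, fun j hj g hg => ?_⟩
    · rw [Function.update_of_ne (by omega)]
      exact hH0 g
    · rcases Nat.lt_or_ge j k with hjk | hjk
      · rw [Function.update_of_ne (by omega), Function.update_of_ne (by omega)]
        exact hH1 j hjk g hg
      · obtain rfl : j = k := by omega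
        rw [Function.update_self, Function.update_of_ne (by omega)]
        exact hn1 g hg
    · rcases Nat.lt_or_ge j (k + 1) with hjk | hjk
      · rw [Function.update_of_ne (by omega)]
        exact (hH2 j (by omega) g hg).trans (ENNReal.ofReal_le_ofReal (le_max_left _ _))
      · obtain rfl : j = k + 1 := by omega
        rw [Function.update_self]
        exact (hn2 g hg).trans (ENNReal.ofReal_le_ofReal (le_max_right _ _))

/-! ### Straight simplices on near tuples -/

theorem barSimplex_mulLeft (x : Fin n → ℝ) (g : Fin (k + 1) → Fin n → ℝ) :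
    G.barSimplex (fun j => G.mul x (g j)) = G.tr x (G.barSimplex g) := by
  ext1
  funext t
  exact bar_mulLeft G t.1 t.2.2 x g

theorem mass_sC_near (L : ℝ) (k : ℕ) : ∃ C : ℝ, 0 < C ∧
    ∀ g : Fin (k + 1) → Fin n → ℝ, G.near L g → G.mass B (G.sC g) ≤ ENNReal.ofReal C := by
  obtain ⟨C1, hC1, D, hgr⟩ := nrm_growth G
  obtain ⟨C, hC, hvol⟩ := vol_barSimplex_le G B k (C1 * (1 + L) ^ D)
  refine ⟨C, hC, fun g hg => ?_⟩
  have h1 : g = fun j => G.mul (g 0) (G.ldiv (g 0) (g j)) := by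
    funext j
    simp [ldiv]
  rw [sC, mass_single, h1, barSimplex_mulLeft, vol_tr]
  simp only [Int.natAbs_one, Nat.cast_one, one_mul]
  apply hvol
  intro j
  refine (hgr _).trans ?_
  have h2 := hg 0 j
  have h3 := nrm_nonneg G (G.ldiv (g 0) (g j))
  gcongr

end NilLaw

/-- The cochains produced by Euclidean filling functions: a cochain `F` with the right volume
bound which differs from the signed volume of straight simplices by the coboundary of `h`. -/
theorem NilLaw.exists_cochains {m : ℕ} (G : NilLaw (m + 1))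
    (B : Matrix (Fin (m + 1)) (Fin (m + 1)) ℝ) (hB : B.PosDef)
    (hFV : ∀ j, j + 2 ≤ m + 1 → ¬ G.SuperEuclidean B (j + 1)) (K : ℝ) (hK : 0 ≤ K) :
    ∃ A : ℝ, 0 < A ∧ ∀ ρ : ℝ, 1 ≤ ρ → ∃ C : ℝ, 0 < C ∧
      ∃ (F : (Fin (m + 2) → Fin (m + 1) → ℝ) → ℝ) (h : (Fin (m + 1) → Fin (m + 1) → ℝ) → ℝ),
        (∀ g, G.near (K * ρ) g → |F g| ≤ A * ρ ^ (m + 1)) ∧
        (∀ g, G.near (K * ρ) g → |h g| ≤ C) ∧
        ∀ g, G.near (K * ρ) g →
          F g - sgnVol (G.barSimplex g) =
            ∑ i : Fin (m + 2), (-1 : ℝ) ^ (i : ℕ) * h (fun j => g (i.succAbove j)) := by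
  obtain ⟨A, hA, hΦ⟩ := G.exists_Phi B hFV K hK (m + 1) le_rfl
  set b : ℝ := (√ B.det)⁻¹ with hb
  have hb0 : 0 < b := inv_pos.2 (Real.sqrt_pos.2 hB.det_pos)
  have hbd : ∀ (c : Chain (m + 1) (m + 1)) (M : ℝ), 0 ≤ M →
      G.mass B c ≤ ENNReal.ofReal M → |sgnVolChain c| ≤ b * M := by
    intro c M hM hc
    have h1 := G.ofReal_abs_sgnVolChain_le B hB c
    have h2 := h1.trans (mul_le_mul_right hc _)
    rw [← ENNReal.ofReal_mul hb0.le] at h2
    exact (ENNReal.ofReal_le_ofReal_iff (by positivity)).1 h2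
  refine ⟨b * A, by positivity, fun ρ hρ => ?_⟩
  have hρ0 : 0 ≤ ρ := by linarith
  obtain ⟨Φ, h0, h1, h2⟩ := hΦ ρ hρ
  -- mass bounds of straight simplices
  have hS : ∃ A1 : ℝ, 0 < A1 ∧ ∀ j ≤ m + 1, ∀ g : Fin (j + 1) → Fin (m + 1) → ℝ,
      G.near (K * ρ) g → G.mass B (G.sC g) ≤ ENNReal.ofReal A1 := by
    choose C hC0 hC using fun j => G.mass_sC_near B (K * ρ) j
    refine ⟨∑ j ∈ Finset.range (m + 2), C j, ?_, fun j hj g hg => ?_⟩
    · apply Finset.sum_pos (fun j _ => hC0 j)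
      simp
    · refine (hC j g hg).trans (ENNReal.ofReal_le_ofReal ?_)
      exact Finset.single_le_sum (f := C) (fun i _ => (hC0 i).le)
        (Finset.mem_range.2 (by omega))
  obtain ⟨A1, hA1, hS⟩ := hS
  obtain ⟨C, hC, H, hH0, hH1, hH2⟩ := G.exists_H B hFV (L := K * ρ) (A := max (A * ρ ^ (m + 1)) A1)
    (by positivity) Φ h0 h1
    (fun j hj g hg => (h2 j hj g hg).trans (ENNReal.ofReal_le_ofReal (le_max_of_le_left (by
      have : ρ ^ j ≤ ρ ^ (m + 1) := pow_le_pow_right₀ hρ hj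
      gcongr))))
    (fun j hj g hg => (hS j hj g hg).trans (ENNReal.ofReal_le_ofReal (le_max_right _ _)))
    m le_rfl
  refine ⟨b * C, by positivity, fun g => sgnVolChain (Φ (m + 1) g),
    fun g => sgnVolChain (H m g), fun g hg => ?_, fun g hg => ?_, fun g hg => ?_⟩
  · have := hbd _ _ (by positivity) (h2 (m + 1) le_rfl g hg)
    linarith
  · exact hbd _ _ hC.le (hH2 m le_rfl g hg)
  · have hcyc := G.cycle_H Φ H m h0 (h1 m (by omega)) hH0 hH1 g hg
    have hz := sgnVolChain_eq_zero (m := m)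
      (fun f g hf hg S hS hfg => integral_det_fderiv_sub (by omega) hf hg hS hfg) _ hcyc
    rw [sgnVolChain_sub, sgnVolChain_sub, sC, sgnVolChain_single, altSum, sgnVolChain_sum] at hz
    simp only [sgnVolChain_smul] at hz
    push_cast at hz
    linarith

end Pool.Agent.TH630
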