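import Pool.Agent.TH630.Fill.Phi
import Pool.Agent.TH630.Fill.Deriv

open MeasureTheory MvPolynomial
open scoped ENNReal NNReal Topology

namespace Pool.Agent.TH630

variable {n m : ℕ}

/-- The directional derivative at `x` along `v`, as a functional on polynomials. -/
noncomputable def dfv (x v : Fin n → ℝ) : Fnl n where
  toFun p := fderiv ℝ (fun y => eval y p) x v
  map_add' p q := by
    have hp := ((contDiff_eval p 1).differentiable (by norm_num) x)
    have hq := ((contDiff_eval q 1).differentiable (by norm_num) x)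
    simp only [map_add]
    rw [show (fun y => eval y p + eval y q) = (fun y => eval y p) + fun y => eval y q from rfl,
      fderiv_add hp hq]
    rfl
  map_smul' c p := by
    have hp := ((contDiff_eval p 1).differentiable (by norm_num) x)
    simp only [smul_eval, RingHom.id_apply, smul_eq_mul]
    rw [fderiv_const_mul hp]
    rfl

theorem dfv_apply (x v : Fin n → ℝ) (p : MvPolynomial (Fin n) ℝ) :
    dfv x v p = fderiv ℝ (fun y => eval y p) x v := rfl

theorem dfv_one (x v : Fin n → ℝ) : dfv x v 1 = 0 := by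
  rw [dfv_apply]
  simp

theorem ev_one (x : Fin n → ℝ) : ev x 1 = 1 := by
  rw [ev_apply, map_one]

theorem differentiable_eval (p : MvPolynomial (Fin n) ℝ) :
    Differentiable ℝ (fun y : Fin n → ℝ => eval y p) :=
  (contDiff_eval p 1).differentiable (by norm_num)

namespace NilLaw

variable (G : NilLaw n)

/-- The polynomials of the left translation by `x`. -/
noncomputable def trPoly (x : Fin n → ℝ) (i : Fin n) : MvPolynomial (Fin n) ℝ :=
  C (x i) + X i + bind₁ (Sum.elim (fun j => C (x j)) X) (G.P i)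

theorem eval_trPoly (x y : Fin n → ℝ) (i : Fin n) : eval y (G.trPoly x i) = G.mul x y i := by
  rw [trPoly, map_add, map_add, eval_C, eval_X, mul_apply]
  congr 1
  rw [← MvPolynomial.coe_aeval_eq_eval, ← MvPolynomial.coe_aeval_eq_eval, RingHom.coe_coe,
    RingHom.coe_coe, MvPolynomial.aeval_bind₁]
  congr 2
  funext j
  cases j <;> simp

/-- Substitution of the left translation by `x`. -/
noncomputable def tau (x : Fin n → ℝ) : MvPolynomial (Fin n) ℝ →ₗ[ℝ] MvPolynomial (Fin n) ℝ :=
  (bind₁ (G.trPoly x) : MvPolynomial (Fin n) ℝ →ₐ[ℝ] _).toLinearMap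

theorem eval_tau (x y : Fin n → ℝ) (p : MvPolynomial (Fin n) ℝ) :
    eval y (G.tau x p) = eval (G.mul x y) p := by
  rw [tau, AlgHom.toLinearMap_apply, ← MvPolynomial.coe_aeval_eq_eval,
    ← MvPolynomial.coe_aeval_eq_eval, RingHom.coe_coe, RingHom.coe_coe, MvPolynomial.aeval_bind₁]
  congr 2
  funext j
  rw [← G.eval_trPoly x y j, ← MvPolynomial.coe_aeval_eq_eval, RingHom.coe_coe]

theorem ev_comp_tau (x a : Fin n → ℝ) : (ev (G.ldiv x a)).comp (G.tau x) = ev a := by
  refine LinearMap.ext fun p => ?_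
  rw [LinearMap.comp_apply, ev_apply, ev_apply, eval_tau, ldiv, mulInvCancelLeft]

theorem ev_zero_comp_tau (x : Fin n → ℝ) : (ev 0).comp (G.tau x) = ev x := by
  have := G.ev_comp_tau x x
  rwa [ldiv_self] at this

theorem dfv_comp_tau (x v : Fin n → ℝ) : (dfv 0 v).comp (G.tau x) = dfv x (G.W x v) := by
  refine LinearMap.ext fun p => ?_
  rw [LinearMap.comp_apply, dfv_apply, dfv_apply]
  simp only [eval_tau]
  have h := fderiv_comp (𝕜 := ℝ) (0 : Fin n → ℝ) (g := fun y => eval y p) (f := G.mul x)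
    (by rw [mulZero]; exact differentiable_eval p x) (G.differentiable_mulLeft x 0)
  rw [mulZero] at h
  have h2 : (fun y => eval (G.mul x y) p) = (fun y => eval y p) ∘ G.mul x := rfl
  rw [h2, h]
  rfl

end NilLaw

/-! ### The polynomial of the signed volume of straight simplices -/

/-- The polynomial `Q` computes the signed volume of straight simplices. -/
def IsVolPoly (G : NilLaw n) (Q : MvPolynomial (Fin (n + 1) × Fin n) ℝ) : Prop :=
  ∀ g : Fin (n + 1) → Fin n → ℝ, sgnVol (G.barSimplex g) = eval (fun p => g p.1 p.2) Q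

theorem IsVolPoly.cocycle {G : NilLaw (m + 1)}
    {Q : MvPolynomial (Fin (m + 1 + 1) × Fin (m + 1)) ℝ} (hQ : IsVolPoly G Q) :
    IsCocyclePoly Q := by
  intro g
  have h1 : bdry (altSum (G.sC : (Fin (m + 2) → Fin (m + 1) → ℝ) → Chain (m + 1) (m + 1)) g) = 0 := by
    rw [bdry_altSum, ← altSum_altSum (G.sC : (Fin (m + 1) → Fin (m + 1) → ℝ) → _) g]
    apply altSum_congr
    intro i
    exact G.bdry_sC _
  have h2 := sgnVolChain_eq_zero (m := m)
    (fun f g hf hg S hS hfg => integral_det_fderiv_sub (by omega) hf hg hS hfg) _ h1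
  rw [altSum, sgnVolChain_sum] at h2
  rw [← h2]
  refine Finset.sum_congr rfl fun i _ => ?_
  rw [sgnVolChain_smul, NilLaw.sC, sgnVolChain_single, hQ]
  push_cast
  rfl

theorem IsVolPoly.invariant {G : NilLaw n} {Q : MvPolynomial (Fin (n + 1) × Fin n) ℝ}
    (hQ : IsVolPoly G Q) (x : Fin n → ℝ) (g : Fin (n + 1) → Fin n → ℝ) :
    eval (fun p => eval (g p.1) (G.trPoly x p.2)) Q = eval (fun p => g p.1 p.2) Q := by
  simp only [G.eval_trPoly]
  have h := hQ (fun j => G.mul x (g j))
  rw [G.barSimplex_mulLeft, G.sgnVol_tr, hQ] at h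
  exact h.symm

theorem IsVolPoly.degenerate {G : NilLaw n} {Q : MvPolynomial (Fin (n + 1) × Fin n) ℝ}
    (hQ : IsVolPoly G Q) (g : Fin (n + 1) → Fin n → ℝ) (j : Fin n) (h : g j.succ = g 0) :
    eval (fun p => g p.1 p.2) Q = 0 := by
  rw [← hQ]
  exact sgnVol_barSimplex_degenerate G g j h

theorem IsVolPoly.tens_sub {G : NilLaw n} {Q : MvPolynomial (Fin (n + 1) × Fin n) ℝ}
    (hQ : IsVolPoly G Q) (w : Fin n → Fin n → ℝ) :
    tens Q (Fin.cons (ev 0) (fun i => ev (w i) - ev 0)) =
      sgnVol (G.barSimplex (Fin.cons 0 w)) := by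
  classical
  set a : Fin (n + 1) → Fnl n := fun i => ev ((Fin.cons 0 w : Fin (n + 1) → Fin n → ℝ) i) with ha
  set b : Fin (n + 1) → Fnl n := Fin.cons 0 (fun _ => -ev 0) with hb
  have h1 : (Fin.cons (ev 0) (fun i => ev (w i) - ev 0) : Fin (n + 1) → Fnl n) = a + b := by
    funext i
    refine Fin.cases ?_ (fun i => ?_) i
    · simp [ha, hb]
    · simp [ha, hb, sub_eq_add_neg]
  rw [h1, MultilinearMap.map_add_univ, Finset.sum_eq_single Finset.univ]
  · rw [Finset.piecewise_univ, ha, tens_ev, hQ]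
  · intro S _ hS
    by_cases h0 : (0 : Fin (n + 1)) ∈ S
    · obtain ⟨i, hi⟩ : ∃ i, i ∉ S := by
        by_contra hcon
        push Not at hcon
        exact hS (Finset.eq_univ_of_forall hcon)
      obtain ⟨j, rfl⟩ : ∃ j : Fin n, j.succ = i :=
        Fin.exists_succ_eq.2 (fun h => hi (h ▸ h0))
      set c : Fin (n + 1) → ℝ := fun i => if i ∈ S then 1 else -1 with hc
      set g : Fin (n + 1) → Fin n → ℝ := fun i =>
        if i ∈ S then (Fin.cons 0 w : Fin (n + 1) → Fin n → ℝ) i else 0 with hg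
      have h2 : S.piecewise a b = fun i => c i • ev (g i) := by
        funext i
        by_cases hiS : i ∈ S
        · rw [Finset.piecewise_eq_of_mem _ _ _ hiS]
          simp [hc, hg, hiS, ha]
        · rw [Finset.piecewise_eq_of_notMem _ _ _ hiS]
          obtain ⟨j, rfl⟩ : ∃ j : Fin n, j.succ = i :=
            Fin.exists_succ_eq.2 (fun h => hiS (h ▸ h0))
          simp only [hc, hg, hiS, hb, Fin.cons_succ, if_false]
          exact (neg_one_smul ℝ (ev (0 : Fin n → ℝ))).symm
      rw [h2, MultilinearMap.map_smul_univ, tens_ev, hQ.degenerate g j, smul_zero]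
      simp [hg, hi, h0]
    · apply (tens Q).map_coord_zero 0
      rw [Finset.piecewise_eq_of_notMem _ _ _ h0]
      rfl
  · intro h
    exact absurd (Finset.mem_univ _) h

/-- The multilinear part of the signed volume of small straight simplices. -/
theorem IsVolPoly.tens_dfv {G : NilLaw n} {Q : MvPolynomial (Fin (n + 1) × Fin n) ℝ}
    (hQ : IsVolPoly G Q) (v : Fin n → Fin n → ℝ) :
    tens Q (Fin.cons (ev 0) (fun i => dfv 0 (v i))) =
      (Matrix.of v).det * (volume (corner n)).toReal := by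
  have h1 := tendsto_sgnVol_barSimplex G v
  have h2 : Filter.Tendsto (fun s : ℝ => tens Q (Fin.cons (ev 0)
      (fun i => s⁻¹ • (ev (s • v i) - ev 0)))) (𝓝[≠] 0)
      (𝓝 (tens Q (Fin.cons (ev 0) (fun i => dfv 0 (v i))))) := by
    simp only [tens_apply, Fin.prod_univ_succ, Fin.cons_zero, Fin.cons_succ]
    refine tendsto_finsetSum _ fun k _ => ?_
    refine Filter.Tendsto.const_mul _ (Filter.Tendsto.const_mul _ ?_)
    refine tendsto_finsetProd _ fun i _ => ?_
    set p := mono k (Fin.succ i) (n := n) with hp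
    have h3 : HasDerivAt (fun s : ℝ => eval (s • v i) p) (dfv 0 (v i) p) 0 := by
      have h4 : HasDerivAt (fun s : ℝ => s • v i) (v i) 0 := by
        simpa using (hasDerivAt_id (0 : ℝ)).smul_const (v i)
      have h5 : HasFDerivAt (fun y => eval y p) (fderiv ℝ (fun y => eval y p) 0)
          ((fun s : ℝ => s • v i) 0) := by
        simp only [zero_smul]
        exact (differentiable_eval p 0).hasFDerivAt
      exact h5.comp_hasDerivAt (0 : ℝ) h4
    have h6 := h3.tendsto_slope_zero
    refine h6.congr fun s => ?_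
    rw [LinearMap.smul_apply, LinearMap.sub_apply, ev_apply, ev_apply, zero_add, zero_smul]
  have h3 : ∀ s : ℝ, tens Q (Fin.cons (ev 0) (fun i => s⁻¹ • (ev (s • v i) - ev 0))) =
      (s⁻¹) ^ n * sgnVol (G.barSimplex (Fin.cons 0 (fun j => s • v j))) := by
    intro s
    rw [← hQ.tens_sub]
    have h4 : (Fin.cons (ev 0) (fun i => s⁻¹ • (ev (s • v i) - ev 0)) : Fin (n + 1) → Fnl n) =
        fun i => (Fin.cons 1 (fun _ => s⁻¹) : Fin (n + 1) → ℝ) i •
          (Fin.cons (ev 0) (fun i => ev (s • v i) - ev 0) : Fin (n + 1) → Fnl n) i := by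
      funext i
      refine Fin.cases ?_ (fun i => ?_) i <;> simp
    rw [h4, MultilinearMap.map_smul_univ, Fin.prod_univ_succ]
    simp
  simp only [h3] at h2
  exact tendsto_nhds_unique h2 h1

theorem IsVolPoly.kap_zero {G : NilLaw n} {Q : MvPolynomial (Fin (n + 1) × Fin n) ℝ}
    (hQ : IsVolPoly G Q) :
    kap Q (ev 0) (fun j => dfv 0 (Pi.single j 1)) =
      n.factorial * (volume (corner n)).toReal := by
  rw [kap_eq_sum_perm]
  have h1 : ∀ π : Equiv.Perm (Fin n), ((Equiv.Perm.sign π : ℤ) : ℝ) *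
      tens Q (Fin.cons (ev 0) (fun i => dfv 0 (Pi.single (π i) 1))) =
      (volume (corner n)).toReal := by
    intro π
    rw [hQ.tens_dfv]
    have h2 : (Matrix.of fun i => (Pi.single (π i) 1 : Fin n → ℝ)) =
        (1 : Matrix (Fin n) (Fin n) ℝ).submatrix π id := by
      ext i j
      rw [Matrix.of_apply, Matrix.submatrix_apply, Matrix.one_apply, Pi.single_apply]
      simp [eq_comm]
    rw [h2, Matrix.det_permute, Matrix.det_one, mul_one, ← mul_assoc]
    have h3 : ((Equiv.Perm.sign π : ℤ) : ℝ) * ((Equiv.Perm.sign π : ℤ) : ℝ) = 1 := by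
      rcases Int.units_eq_one_or (Equiv.Perm.sign π) with h | h <;> simp [h]
    rw [h3, one_mul]
  rw [Finset.sum_congr rfl fun π _ => h1 π, Finset.sum_const, Finset.card_univ,
    Fintype.card_perm, Fintype.card_fin, nsmul_eq_mul]

end Pool.Agent.TH630
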